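import Mathlib

/-!
# From a dense set of `l` to the intervals

Let `T` be closed in `ℝ` and suppose that for a dense set of `l ∈ [0, 1]` every `η` with
`(η - P) (η - Q) = P Q l` has `P + Q - η ∈ T`. Then `[0, min P Q] ∪ [max P Q, P + Q] ⊆ T`.
-/

set_option autoImplicit false

namespace Pool.SpecDense

private lemma clos_root (P Q l s : ℝ) (hs : s ^ 2 = 1) (hl : 0 ≤ (P - Q) ^ 2 + 4 * (P * Q * l)) :
    ((P + Q + s * Real.sqrt ((P - Q) ^ 2 + 4 * (P * Q * l))) / 2 - P) *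
      ((P + Q + s * Real.sqrt ((P - Q) ^ 2 + 4 * (P * Q * l))) / 2 - Q) = P * Q * l := by
  have h := Real.sq_sqrt hl
  set r := Real.sqrt ((P - Q) ^ 2 + 4 * (P * Q * l)) with hr
  have h1 : (s * r) ^ 2 = (P - Q) ^ 2 + 4 * (P * Q * l) := by
    rw [mul_pow, hs, one_mul, h]
  nlinarith

theorem clos {T : Set ℝ} (hT : IsClosed T) {P Q : ℝ} (hP : 0 < P) (hQ : 0 < Q) (L : ℝ → Prop)
    (hd : ∀ l : ℝ, 0 ≤ l → l ≤ 1 → ∀ ε : ℝ, 0 < ε → ∃ l' : ℝ, L l' ∧ |l' - l| < ε)
    (h : ∀ l η : ℝ, L l → (η - P) * (η - Q) = P * Q * l → P + Q - η ∈ T) :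
    Set.Icc 0 (min P Q) ∪ Set.Icc (max P Q) (P + Q) ⊆ T := by
  intro y hy
  have hPQ : 0 < P * Q := mul_pos hP hQ
  -- bounds for `(y - P) (y - Q)`
  have hb : 0 ≤ (y - P) * (y - Q) ∧ (y - P) * (y - Q) ≤ P * Q := by
    rcases hy with ⟨h1, h2⟩ | ⟨h1, h2⟩
    · have h3 := h2.trans (min_le_left P Q)
      have h4 := h2.trans (min_le_right P Q)
      constructor
      · nlinarith
      · nlinarith
    · have h3 := (le_max_left P Q).trans h1
      have h4 := (le_max_right P Q).trans h1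
      constructor
      · nlinarith
      · nlinarith
  set l : ℝ := (y - P) * (y - Q) / (P * Q) with hl
  have hl0 : 0 ≤ l := div_nonneg hb.1 hPQ.le
  have hl1 : l ≤ 1 := (div_le_one hPQ).2 hb.2
  have hPl : P * Q * l = (y - P) * (y - Q) := by
    rw [hl, mul_div_cancel₀ _ hPQ.ne']
  -- the sign
  obtain ⟨s, hs, hsy⟩ : ∃ s : ℝ, s ^ 2 = 1 ∧
      P + Q - (P + Q + s * Real.sqrt ((P - Q) ^ 2 + 4 * (P * Q * l))) / 2 = y := by
    have hsq : (P - Q) ^ 2 + 4 * (P * Q * l) = (P + Q - 2 * y) ^ 2 := by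
      rw [hPl]
      ring
    rw [hsq, Real.sqrt_sq_eq_abs]
    rcases le_total 0 (P + Q - 2 * y) with h1 | h1
    · refine ⟨1, by norm_num, ?_⟩
      rw [abs_of_nonneg h1]
      ring
    · refine ⟨-1, by norm_num, ?_⟩
      rw [abs_of_nonpos h1]
      ring
  -- the continuous function
  set f : ℝ → ℝ := fun x => P + Q - (P + Q + s * Real.sqrt ((P - Q) ^ 2 + 4 * (P * Q * x))) / 2
    with hf
  have hcont : Continuous f := by
    have h1 : Continuous fun x : ℝ => Real.sqrt ((P - Q) ^ 2 + 4 * (P * Q * x)) :=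
      Real.continuous_sqrt.comp (by fun_prop)
    rw [hf]
    fun_prop
  have hval : f l = y := hsy
  rw [← hval, ← hT.closure_eq, Metric.mem_closure_iff]
  intro ε hε
  by_cases hl00 : l = 0
  · -- the case `l = 0`: nearby points may be negative, so go on with care
    obtain ⟨δ, hδ, hδ'⟩ := Metric.continuous_iff.1 hcont l ε hε
    -- take a point of `[0, 1]` close to `l`, in the interior
    set l₁ : ℝ := min (δ / 4) (1 / 2) with hl₁
    have h1 : 0 < l₁ := lt_min (by linarith) (by norm_num)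
    have h2 : l₁ ≤ δ / 4 := min_le_left _ _
    have h3 : l₁ ≤ 1 / 2 := min_le_right _ _
    obtain ⟨l', hL, hl'⟩ := hd l₁ h1.le (by linarith) l₁ h1
    rw [abs_lt] at hl'
    have h4 : 0 ≤ (P - Q) ^ 2 + 4 * (P * Q * l') := by
      have : 0 ≤ P * Q * l' := mul_nonneg hPQ.le (by linarith)
      positivity
    refine ⟨f l', h l' _ hL (clos_root P Q l' s hs h4), ?_⟩
    rw [dist_comm]
    refine hδ' l' ?_
    rw [Real.dist_eq, abs_lt]
    constructor <;> linarith
  · have hlpos : 0 < l := lt_of_le_of_ne hl0 (Ne.symm hl00)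
    obtain ⟨δ, hδ, hδ'⟩ := Metric.continuous_iff.1 hcont l ε hε
    obtain ⟨l', hL, hl'⟩ := hd l hl0 hl1 (min δ l) (lt_min hδ hlpos)
    have h1 := hl'.trans_le (min_le_left _ _)
    have h2 := hl'.trans_le (min_le_right _ _)
    rw [abs_lt] at h2
    have h4 : 0 ≤ (P - Q) ^ 2 + 4 * (P * Q * l') := by
      have : 0 ≤ P * Q * l' := mul_nonneg hPQ.le (by linarith)
      positivity
    refine ⟨f l', h l' _ hL (clos_root P Q l' s hs h4), ?_⟩
    rw [dist_comm]
    exact hδ' l' (by rw [Real.dist_eq]; exact h1)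

end Pool.SpecDense
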