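import Pool.Agent.Lib.MP_863a8d_al.Ker
import Pool.Agent.Lib.MP_863a8d_al.SpecSet

/-!
# Spinal groups with regular root actions: definitions
-/

set_option autoImplicit false

namespace Pool.SpecDense

/-- The data that define a (regular) spinal group with directed part `B`: a sequence of finite groups
`A 0, A 1, …`, surjective homomorphisms `ω n : B → A (n + 1)` and letters `g n ≠ 1` in `A n`. -/
structure Spinal (B : Type) [Group B] where
  /-- the alphabets, which are also the root groups -/
  A : ℕ → Type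
  [grp : ∀ n, Group (A n)]
  [fin : ∀ n, Fintype (A n)]
  /-- the homomorphisms -/
  ω : ∀ n, B →* A (n + 1)
  /-- the letters -/
  g : ∀ n, A n
  surj : ∀ n, Function.Surjective (ω n)
  ne : ∀ n, g n ≠ 1

namespace Spinal

attribute [instance] Spinal.grp Spinal.fin

variable {B : Type} [Group B] (D : Spinal B)

/-- The points of the boundary of the tree: sequences `u` with `u n ∈ A n`. -/
abbrev Pt : Type := ∀ n, D.A n

/-- The rooted permutation given by `x ∈ A 0`: the first letter is multiplied by `x`. -/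
def rot (x : D.A 0) (u : D.Pt) : D.Pt
  | 0 => x * u 0
  | n + 1 => u (n + 1)

open Classical in
/-- The directed permutation given by `z ∈ B`: if `u = (1, …, 1, g k, u (k+1), …)` then the letter
`u (k+1)` is multiplied by `ω k z`; all other letters, and all other sequences, are fixed. -/
noncomputable def dir (z : B) (u : D.Pt) : D.Pt
  | 0 => u 0
  | k + 1 => if (∀ i < k, u i = 1) ∧ u k = D.g k then D.ω k z * u (k + 1) else u (k + 1)

lemma rot_zero (x : D.A 0) (u : D.Pt) : D.rot x u 0 = x * u 0 := rfl

lemma rot_succ (x : D.A 0) (u : D.Pt) (n : ℕ) : D.rot x u (n + 1) = u (n + 1) := rfl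

lemma dir_zero (z : B) (u : D.Pt) : D.dir z u 0 = u 0 := rfl

open Classical in
lemma dir_succ (z : B) (u : D.Pt) (k : ℕ) : D.dir z u (k + 1) =
    if (∀ i < k, u i = 1) ∧ u k = D.g k then D.ω k z * u (k + 1) else u (k + 1) := rfl

lemma rot_mul (x y : D.A 0) (u : D.Pt) : D.rot (x * y) u = D.rot x (D.rot y u) := by
  funext n
  cases n with
  | zero => simp only [rot_zero, mul_assoc]
  | succ n => simp only [rot_succ]

lemma rot_one (u : D.Pt) : D.rot 1 u = u := by
  funext n
  cases n with
  | zero => simp only [rot_zero, one_mul]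
  | succ n => simp only [rot_succ]

/-- `u` starts with `1, …, 1, g k` -/
def At (u : D.Pt) (k : ℕ) : Prop := (∀ i < k, u i = 1) ∧ u k = D.g k

lemma dir_pos (z : B) {u : D.Pt} {k : ℕ} (h : D.At u k) :
    D.dir z u (k + 1) = D.ω k z * u (k + 1) := if_pos h

lemma dir_neg (z : B) {u : D.Pt} {k : ℕ} (h : ¬ D.At u k) :
    D.dir z u (k + 1) = u (k + 1) := if_neg h

lemma At.unique {u : D.Pt} {k l : ℕ} (h : D.At u k) (h' : D.At u l) : k = l := by
  rcases lt_trichotomy k l with h1 | h1 | h1
  · exact absurd (h.2.symm.trans (h'.1 k h1)) (D.ne k)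
  · exact h1
  · exact absurd (h'.2.symm.trans (h.1 l h1)) (D.ne l)

lemma At_dir (z : B) (u : D.Pt) (k : ℕ) : D.At (D.dir z u) k ↔ D.At u k := by
  -- all coordinates up to the first special one are unchanged
  have hlow : ∀ {v w : D.Pt} {l : ℕ}, (∀ i ≤ l, v i = w i) → D.At v l → D.At w l := by
    intro v w l h hv
    exact ⟨fun i hi => by rw [← h i hi.le]; exact hv.1 i hi, by rw [← h l le_rfl]; exact hv.2⟩
  have hfix : ∀ l, (∀ j < l, ¬ D.At u j) → ∀ i ≤ l, D.dir z u i = u i := by
    intro l h i hi
    cases i with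
    | zero => rfl
    | succ i => exact D.dir_neg z (h i hi)
  constructor
  · intro h
    by_cases hex : ∃ j < k, D.At u j
    · obtain ⟨j, hj, hj'⟩ := hex
      have h1 : D.dir z u j = u j := hfix j (fun i hi hc => absurd (hc.unique D hj') hi.ne) j le_rfl
      have h2 := h.1 j hj
      rw [h1, hj'.2] at h2
      exact absurd h2 (D.ne j)
    · push Not at hex
      exact hlow (hfix k hex) h
  · intro h
    have hex : ∀ j < k, ¬ D.At u j := fun j hj hc => absurd (hc.unique D h) hj.ne
    exact hlow (fun i hi => (hfix k hex i hi).symm) h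

lemma dir_mul (z z' : B) (u : D.Pt) : D.dir (z * z') u = D.dir z (D.dir z' u) := by
  funext n
  cases n with
  | zero => rfl
  | succ k =>
      by_cases h : D.At u k
      · rw [D.dir_pos _ h, D.dir_pos _ ((D.At_dir z' u k).2 h), D.dir_pos _ h, map_mul, mul_assoc]
      · rw [D.dir_neg _ h, D.dir_neg _ (fun hc => h ((D.At_dir z' u k).1 hc)), D.dir_neg _ h]

lemma dir_one (u : D.Pt) : D.dir 1 u = u := by
  funext n
  cases n with
  | zero => rfl
  | succ k =>
      by_cases h : D.At u k
      · rw [D.dir_pos _ h, map_one, one_mul]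
      · rw [D.dir_neg _ h]

/-- The rooted permutations. -/
def rotHom : D.A 0 →* Equiv.Perm D.Pt where
  toFun x := ⟨D.rot x, D.rot x⁻¹, fun u => by rw [← rot_mul, inv_mul_cancel, rot_one],
    fun u => by rw [← rot_mul, mul_inv_cancel, rot_one]⟩
  map_one' := Equiv.ext fun u => D.rot_one u
  map_mul' x y := Equiv.ext fun u => D.rot_mul x y u

/-- The directed permutations. -/
noncomputable def dirHom : B →* Equiv.Perm D.Pt where
  toFun z := ⟨D.dir z, D.dir z⁻¹, fun u => by rw [← dir_mul, inv_mul_cancel, dir_one],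
    fun u => by rw [← dir_mul, mul_inv_cancel, dir_one]⟩
  map_one' := Equiv.ext fun u => D.dir_one u
  map_mul' x y := Equiv.ext fun u => D.dir_mul x y u

/-- The spinal group: the group of permutations generated by the rooted and the directed
permutations. -/
noncomputable def G : Subgroup (Equiv.Perm D.Pt) := D.rotHom.range ⊔ D.dirHom.range

/-- The spinal group as a type. -/
abbrev Gp : Type := ↥D.G

/-- The rooted generators. -/
noncomputable def a : D.A 0 →* D.Gp :=
  D.rotHom.codRestrict D.G fun x => Subgroup.mem_sup_left ⟨x, rfl⟩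

/-- The directed generators. -/
noncomputable def b : B →* D.Gp :=
  D.dirHom.codRestrict D.G fun z => Subgroup.mem_sup_right ⟨z, rfl⟩

lemma a_apply (x : D.A 0) (u : D.Pt) : (D.a x : Equiv.Perm D.Pt) u = D.rot x u := rfl

lemma b_apply (z : B) (u : D.Pt) : (D.b z : Equiv.Perm D.Pt) u = D.dir z u := rfl

/-- The shifted data. -/
def shift : Spinal B where
  A n := D.A (n + 1)
  grp n := D.grp (n + 1)
  fin n := D.fin (n + 1)
  ω n := D.ω (n + 1)
  g n := D.g (n + 1)
  surj n := D.surj (n + 1)
  ne n := D.ne (n + 1)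

/-- The data shifted `n` times. -/
def sh (D : Spinal B) : ℕ → Spinal B
  | 0 => D
  | n + 1 => (sh D n).shift

/-- Put a letter in front of a sequence. -/
def cons (x : D.A 0) (u : D.shift.Pt) : D.Pt
  | 0 => x
  | n + 1 => u n

end Spinal

/-! ### Abstract notions for a group with two finite subgroups -/

/-- The average of a function on a finite set. -/
noncomputable def avg {X : Type} [Fintype X] (f : X → ℝ) : ℝ := (∑ x, f x) / (Fintype.card X : ℝ)

section two

variable {A B G : Type} [Group A] [Fintype A] [Group B] [Fintype B] [Group G]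

/-- `P e_A + Q e_B` has the eigenvalue `η` on the functions on some finite `G`-set. -/
def Eig (a : A →* G) (b : B →* G) (P Q η : ℝ) : Prop :=
  ∃ (Y : Type) (_ : Fintype Y) (_ : MulAction G Y) (w : Y → ℝ), w ≠ 0 ∧
    ∀ y, P * avg (fun x : A => w (a x • y)) + Q * avg (fun z : B => w (b z • y)) = η * w y

/-- `e_A e_B` has the eigenvalue `l` with an `A`-invariant eigenfunction on some finite `G`-set. -/
def Lam (a : A →* G) (b : B →* G) (l : ℝ) : Prop :=
  ∃ (Y : Type) (_ : Fintype Y) (_ : MulAction G Y) (f : Y → ℝ), f ≠ 0 ∧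
    (∀ (x : A) (y : Y), f (a x • y) = f y) ∧
    ∀ y, avg (fun x : A => avg (fun z : B => f (b z • a x • y))) = l * f y

/-- The Markov operator of `W` is `P e_A + Q e_B - (P + Q - 1)`. -/
def TwoW (W : Walk G) (a : A →* G) (b : B →* G) (P Q : ℝ) : Prop :=
  ∀ (V : Type) [AddCommGroup V] [Module ℝ V] (F : G → V), ∑ s ∈ W.S, W.μ s • F s =
    (P / (Fintype.card A : ℝ)) • ∑ x : A, F (a x) + (Q / (Fintype.card B : ℝ)) • ∑ z : B, F (b z) -
      (P + Q - 1) • F 1

/-- Finitely supported normalised positive definite functions. -/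
structure Good (φ : G → ℝ) : Prop where
  pd : PD φ
  fin : {g | φ g ≠ 0}.Finite
  one : φ 1 = 1

end two

/-- The self similar structure: `p` is the action on the first letter and `sec g x` is the section of
`g` at the letter `x`. -/
structure Step {A B G A' G' : Type} [Group A] [Group B] [Group G] [Group A'] [Group G']
    (a : A →* G) (b : B →* G) (a' : A' →* G') (b' : B →* G') (ω : B →* A') (g₀ : A) where
  p : G →* A
  sec : G → A → G'
  sec_mul : ∀ g h x, sec (g * h) x = sec g (p h * x) * sec h x
  p_a : ∀ x, p (a x) = x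
  p_b : ∀ z, p (b z) = 1
  sec_a : ∀ x y, sec (a x) y = 1
  sec_b_one : ∀ z, sec (b z) 1 = b' z
  sec_b_g : ∀ z, sec (b z) g₀ = a' (ω z)
  sec_b_ne : ∀ z x, x ≠ 1 → x ≠ g₀ → sec (b z) x = 1
  inj : ∀ g, p g = 1 → (∀ x, sec g x = 1) → g = 1

end Pool.SpecDense
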