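import Pool.Agent.Lib.MP_863a8d_al.SP.LipC

/-!
# Density

By induction on `m`, for all `n` and all `κ ∈ [0, 2]`: there is `κ'`, `0 < κ' < 2`, with `P n κ'` and
`|arccos (κ' - 1) - arccos (κ - 1)| ≤ π / 2 ^ m`.
-/

set_option autoImplicit false

namespace Pool.SpecDense

/-- the choice of `j` -/
theorem exists_j {d : ℕ} (hd : 2 ≤ d) {l : ℝ} (h0 : 0 ≤ l) (h1 : l ≤ 1) :
    ∃ j : ℕ, j + 2 ≤ d ∧ 0 ≤ (d : ℝ) * l - j ∧ (d : ℝ) * l - j ≤ 2 := by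
  have hdl : 0 ≤ (d : ℝ) * l := mul_nonneg (Nat.cast_nonneg d) h0
  have hdl' : (d : ℝ) * l ≤ d := by
    have : (0 : ℝ) ≤ d := Nat.cast_nonneg d
    nlinarith
  by_cases h : ⌊(d : ℝ) * l⌋₊ + 2 ≤ d
  · refine ⟨⌊(d : ℝ) * l⌋₊, h, sub_nonneg.2 (Nat.floor_le hdl), ?_⟩
    have := Nat.lt_floor_add_one ((d : ℝ) * l)
    linarith
  · refine ⟨d - 2, by omega, ?_, ?_⟩
    · have h2 : d - 2 ≤ ⌊(d : ℝ) * l⌋₊ := by omega
      have h3 : ((d - 2 : ℕ) : ℝ) ≤ (⌊(d : ℝ) * l⌋₊ : ℝ) := by exact_mod_cast h2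
      have h4 := Nat.floor_le hdl
      linarith
    · rw [Nat.cast_sub hd]
      push_cast
      linarith

/-- one step in the coordinate `arccos (κ - 1)` -/
private theorem dens_step {d j : ℕ} (hd : 2 ≤ d) (hj : j + 2 ≤ d) {κ κ' : ℝ} (h0 : 0 ≤ κ) (h2 : κ ≤ 2)
    (h0' : 0 ≤ κ') (h2' : κ' ≤ 2) {s : ℝ} (hs : s = 1 ∨ s = -1) :
    |Real.arccos (s * Real.sqrt ((κ' + j) / (d : ℝ))) - Real.arccos (s * Real.sqrt ((κ + j) / (d : ℝ)))| ≤
      |Real.arccos (κ' - 1) - Real.arccos (κ - 1)| / 2 := by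
  have hd0 : (0 : ℝ) < d := by
    have : 0 < d := by omega
    exact_mod_cast this
  have hjd : (j : ℝ) + 2 ≤ d := by exact_mod_cast hj
  have hj0 : (0 : ℝ) ≤ j := Nat.cast_nonneg j
  have hl : ∀ x : ℝ, 0 ≤ x → x ≤ 2 → 0 ≤ (x + j) / (d : ℝ) ∧ (x + j) / (d : ℝ) ≤ 1 := by
    intro x hx0 hx2
    refine ⟨div_nonneg (by linarith) hd0.le, (div_le_one hd0).2 (by linarith)⟩
  have hpos : |Real.arccos (Real.sqrt ((κ' + j) / (d : ℝ))) -
      Real.arccos (Real.sqrt ((κ + j) / (d : ℝ)))| ≤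
      |Real.arccos (κ' - 1) - Real.arccos (κ - 1)| / 2 := by
    rw [arccos_sqrt (hl κ' h0' h2').1 (hl κ' h0' h2').2, arccos_sqrt (hl κ h0 h2).1 (hl κ h0 h2).2,
      ← sub_div, abs_div, abs_of_pos (show (0 : ℝ) < 2 by norm_num)]
    refine div_le_div_of_nonneg_right ?_ (by norm_num)
    have e : ∀ x : ℝ, 2 * ((x + j) / (d : ℝ)) - 1 =
        2 / (d : ℝ) * (x - 1) + (2 * ((j : ℝ) + 1) / (d : ℝ) - 1) := by
      intro x
      field_simp
      ring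
    rw [e κ', e κ]
    refine arccos_affine (by positivity) ?_ ⟨by linarith, by linarith⟩ ⟨by linarith, by linarith⟩
    have h3 : |2 * ((j : ℝ) + 1) / (d : ℝ) - 1| ≤ 1 - 2 / (d : ℝ) := by
      rw [abs_le]
      constructor
      · have : 2 / (d : ℝ) ≤ 2 * ((j : ℝ) + 1) / (d : ℝ) :=
          div_le_div_of_nonneg_right (by linarith) hd0.le
        linarith
      · have h4 : 2 * ((j : ℝ) + 1) / (d : ℝ) + 2 / (d : ℝ) ≤ 2 := by
          rw [← add_div, div_le_iff₀ hd0]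
          linarith
        linarith
    linarith
  rcases hs with rfl | rfl
  · rw [one_mul, one_mul]
    exact hpos
  · rw [neg_one_mul, neg_one_mul, Real.arccos_neg, Real.arccos_neg, sub_sub_sub_cancel_left,
      abs_sub_comm]
    exact hpos

private theorem dens_approx (d : ℕ → ℕ) (hd : ∀ n, 2 ≤ d n) (P : ℕ → ℝ → Prop) (hbase : ∀ n, P n 1)
    (hstep : ∀ (n : ℕ) (κ : ℝ), 0 < κ → κ < 2 → P (n + 1) κ → ∀ j : ℕ, j + 2 ≤ d n →
      ∀ s : ℝ, (s = 1 ∨ s = -1) → P n (1 + s * Real.sqrt ((κ + j) / (d n : ℝ)))) (m : ℕ) :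
    ∀ (n : ℕ) (κ : ℝ), 0 ≤ κ → κ ≤ 2 → ∃ κ' : ℝ, 0 < κ' ∧ κ' < 2 ∧ P n κ' ∧
      |Real.arccos (κ' - 1) - Real.arccos (κ - 1)| ≤ Real.pi / 2 ^ m := by
  induction m with
  | zero =>
      intro n κ _ _
      refine ⟨1, by norm_num, by norm_num, hbase n, ?_⟩
      rw [pow_zero, div_one, abs_le]
      have h1 := Real.arccos_nonneg (1 - 1)
      have h2 := Real.arccos_le_pi (1 - 1)
      have h3 := Real.arccos_nonneg (κ - 1)
      have h4 := Real.arccos_le_pi (κ - 1)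
      constructor <;> linarith
  | succ m ih =>
      intro n κ h0 h2
      have hl0 : 0 ≤ (κ - 1) ^ 2 := sq_nonneg _
      have hl1 : (κ - 1) ^ 2 ≤ 1 := by nlinarith
      obtain ⟨j, hj, hj0, hj2⟩ := exists_j (hd n) hl0 hl1
      set κ₁ : ℝ := (d n : ℝ) * (κ - 1) ^ 2 - j with hκ₁
      obtain ⟨κ₁', h3, h4, h5, h6⟩ := ih (n + 1) κ₁ hj0 hj2
      have hd0 : (0 : ℝ) < d n := by
        have := hd n
        exact_mod_cast (by omega : 0 < d n)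
      have hjd : (j : ℝ) + 2 ≤ d n := by exact_mod_cast hj
      have hjn : (0 : ℝ) ≤ j := Nat.cast_nonneg j
      obtain ⟨s, hs, hsκ⟩ : ∃ s : ℝ, (s = 1 ∨ s = -1) ∧ κ - 1 = s * Real.sqrt ((κ₁ + j) / (d n : ℝ)) := by
        have e : (κ₁ + j) / (d n : ℝ) = (κ - 1) ^ 2 := by
          rw [hκ₁]
          field_simp
          ring
        rw [e, Real.sqrt_sq_eq_abs]
        rcases le_total 0 (κ - 1) with h | h
        · exact ⟨1, Or.inl rfl, by rw [abs_of_nonneg h, one_mul]⟩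
        · exact ⟨-1, Or.inr rfl, by rw [abs_of_nonpos h]; ring⟩
      have hl' : 0 < (κ₁' + j) / (d n : ℝ) := div_pos (by linarith) hd0
      have hl'' : (κ₁' + j) / (d n : ℝ) < 1 := (div_lt_one hd0).2 (by linarith)
      have hr0 : 0 < Real.sqrt ((κ₁' + j) / (d n : ℝ)) := Real.sqrt_pos.2 hl'
      have hr1 : Real.sqrt ((κ₁' + j) / (d n : ℝ)) < 1 := by
        rw [Real.sqrt_lt' one_pos, one_pow]
        exact hl''
      refine ⟨1 + s * Real.sqrt ((κ₁' + j) / (d n : ℝ)), ?_, ?_, hstep n κ₁' h3 h4 h5 j hj s hs, ?_⟩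
      · rcases hs with rfl | rfl <;> linarith
      · rcases hs with rfl | rfl <;> linarith
      · rw [add_sub_cancel_left, hsκ]
        refine (dens_step (hd n) hj hj0 hj2 h3.le h4.le hs).trans ?_
        rw [pow_succ, ← div_div]
        exact div_le_div_of_nonneg_right h6 (by norm_num)

theorem dens (d : ℕ → ℕ) (hd : ∀ n, 2 ≤ d n) (P : ℕ → ℝ → Prop) (hbase : ∀ n, P n 1)
    (hstep : ∀ (n : ℕ) (κ : ℝ), 0 < κ → κ < 2 → P (n + 1) κ → ∀ j : ℕ, j + 2 ≤ d n →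
      ∀ s : ℝ, (s = 1 ∨ s = -1) → P n (1 + s * Real.sqrt ((κ + j) / (d n : ℝ))))
    (n : ℕ) {κ : ℝ} (h0 : 0 ≤ κ) (h2 : κ ≤ 2) {ε : ℝ} (hε : 0 < ε) :
    ∃ κ' : ℝ, 0 < κ' ∧ κ' < 2 ∧ P n κ' ∧ |κ' - κ| < ε := by
  have hlim : Filter.Tendsto (fun m : ℕ => Real.pi * (1 / 2 : ℝ) ^ m) Filter.atTop
      (nhds (Real.pi * 0)) :=
    (tendsto_pow_atTop_nhds_zero_of_lt_one (by norm_num) (by norm_num)).const_mul _
  rw [mul_zero] at hlim
  obtain ⟨m, hm⟩ := (hlim.eventually (gt_mem_nhds hε)).exists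
  obtain ⟨κ', h3, h4, h5, h6⟩ := dens_approx d hd P hbase hstep m n κ h0 h2
  refine ⟨κ', h3, h4, h5, ?_⟩
  have e1 : κ' - 1 = Real.cos (Real.arccos (κ' - 1)) :=
    (Real.cos_arccos (by linarith) (by linarith)).symm
  have e2 : κ - 1 = Real.cos (Real.arccos (κ - 1)) :=
    (Real.cos_arccos (by linarith) (by linarith)).symm
  have e3 : κ' - κ = Real.cos (Real.arccos (κ' - 1)) - Real.cos (Real.arccos (κ - 1)) := by
    rw [← e1, ← e2]
    ring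
  have e4 : Real.pi / 2 ^ m = Real.pi * (1 / 2 : ℝ) ^ m := by
    rw [one_div, inv_pow]
    rfl
  rw [e3]
  rw [e4] at h6
  exact lt_of_le_of_lt ((Real.abs_cos_sub_cos_le _ _).trans h6) hm

end Pool.SpecDense
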