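import Pool.Agent.Lib.MP_863a8d_al.SP.Defs
import Pool.Agent.Lib.MP_863a8d_al.Pos

/-!
# Eigenvalues on finite `G`-sets belong to the spectrum

`φ g = ∑ y, w (g • y) * w y` is positive definite and `W.DR φ = (1 - t) φ`.
-/

set_option autoImplicit false

open Polynomial

namespace Pool.SpecDense

variable {G : Type} [Group G]

namespace EigS

variable {Y : Type} [Fintype Y] [MulAction G Y]

/-- the coefficient -/
noncomputable def co (w : Y → ℝ) (g : G) : ℝ := ∑ y, w (g • y) * w y

lemma co_mul (w : Y → ℝ) (g h : G) : co w (g * h) = ∑ y, w (g • y) * w (h⁻¹ • y) := by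
  unfold co
  refine Fintype.sum_equiv (MulAction.toPerm h) _ _ fun y => ?_
  rw [MulAction.toPerm_apply, mul_smul, inv_smul_smul]

lemma pd_co (w : Y → ℝ) : PD (co (G := G) w) := by
  have hk : ∀ x y : G, co w (x⁻¹ * y) = ∑ η, w (x⁻¹ • η) * w (y⁻¹ • η) := fun x y => co_mul w _ _
  refine ⟨fun x y => ?_, fun F c => ?_⟩
  · show co w (x⁻¹ * y) = co w (y⁻¹ * x)
    rw [hk, hk]
    exact Finset.sum_congr rfl fun _ _ => mul_comm _ _
  · show 0 ≤ ∑ x ∈ F, ∑ y ∈ F, c x * c y * co w (x⁻¹ * y)
    have h : ∑ x ∈ F, ∑ y ∈ F, c x * c y * co w (x⁻¹ * y) =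
        ∑ η : Y, (∑ x ∈ F, c x * w (x⁻¹ • η)) ^ 2 := by
      simp_rw [hk, Finset.mul_sum]
      have h1 : ∀ η : Y, (∑ x ∈ F, c x * w (x⁻¹ • η)) ^ 2 =
          ∑ x ∈ F, ∑ y ∈ F, c x * c y * (w (x⁻¹ • η) * w (y⁻¹ • η)) := by
        intro η
        rw [sq, Finset.sum_mul_sum]
        exact Finset.sum_congr rfl fun x _ => Finset.sum_congr rfl fun y _ => by ring
      simp_rw [h1]
      rw [Finset.sum_comm]
      conv_lhs =>
        enter [2, y]
        rw [Finset.sum_comm]
      rw [Finset.sum_comm]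
      refine Finset.sum_congr rfl fun η _ => ?_
      rw [Finset.sum_comm]
    rw [h]
    exact Finset.sum_nonneg fun _ _ => sq_nonneg _

lemma DR_co (W : Walk G) (w : Y → ℝ) (t : ℝ) (h : ∀ y, W.E (fun s => w (s • y)) = t * w y) :
    W.DR (co w) = (1 - t) • co w := by
  funext g
  rw [W.DR_apply, Pi.smul_apply, smul_eq_mul]
  have h1 : W.E (fun s => co w (g * s)) = t * co w g := by
    have h2 : ∀ s, co w (g * s) = ∑ y, w (g • y) * w (s⁻¹ • y) := fun s => co_mul w g s
    simp_rw [h2]
    unfold Walk.E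
    simp_rw [Finset.mul_sum]
    rw [Finset.sum_comm]
    have h3 : ∀ y : Y, ∑ s ∈ W.S, W.μ s * (w (g • y) * w (s⁻¹ • y)) =
        w (g • y) * (t * w y) := by
      intro y
      rw [← h y, ← W.E_inv]
      unfold Walk.E
      rw [Finset.mul_sum]
      exact Finset.sum_congr rfl fun s _ => by ring
    simp_rw [h3]
    unfold co
    rw [Finset.mul_sum]
    exact Finset.sum_congr rfl fun s _ => by ring
  rw [h1]
  ring

lemma ev_co (W : Walk G) (w : Y → ℝ) (t : ℝ) (h : ∀ y, W.E (fun s => w (s • y)) = t * w y)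
    (p : ℝ[X]) : W.ev p (co w) = p.eval (1 - t) * co w (1 : G) := by
  have h1 : aeval W.DR p (co w) = p.eval (1 - t) • co (G := G) w := by
    induction p using Polynomial.induction_on' with
    | add p q hp hq =>
        rw [map_add, LinearMap.add_apply, hp, hq, eval_add, add_smul]
    | monomial n a =>
        rw [aeval_monomial, Module.End.mul_apply, Module.algebraMap_end_apply, eval_monomial,
          mul_smul]
        congr 1
        induction n with
        | zero => rw [pow_zero, pow_zero, Module.End.one_apply, one_smul]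
        | succ n ih => rw [pow_succ, Module.End.mul_apply, DR_co W w t h, map_smul, ih, smul_smul,
            pow_succ, mul_comm]
  unfold Walk.ev
  rw [h1]
  rfl

lemma co_one_pos {w : Y → ℝ} (hw : w ≠ 0) : 0 < co w (1 : G) := by
  unfold co
  simp only [one_smul]
  obtain ⟨y, hy⟩ := Function.ne_iff.1 hw
  exact Finset.sum_pos' (fun y _ => mul_self_nonneg _) ⟨y, Finset.mem_univ y, mul_self_pos.2 hy⟩

end EigS

open EigS

theorem mem_spec_of_set (W : Walk G) (hG : Folner G) {Y : Type} [Fintype Y] [MulAction G Y]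
    (w : Y → ℝ) (hw : w ≠ 0) (t : ℝ) (h : ∀ y, W.E (fun s => w (s • y)) = t * w y) :
    (1 - t) ∈ W.spec := by
  rw [← W.isClosed_spec.closure_eq, Metric.mem_closure_iff]
  intro r hr
  by_contra hcon
  push Not at hcon
  have hpoly : ∀ y ∈ W.spec, 0 ≤ ((X - C (1 - t)) ^ 2 - C (r ^ 2) : ℝ[X]).eval y := by
    intro y hy
    simp only [eval_sub, eval_pow, eval_X, eval_C]
    have h1 := hcon y hy
    rw [Real.dist_eq] at h1
    have h2 : r ^ 2 ≤ |1 - t - y| ^ 2 := pow_le_pow_left₀ hr.le h1 2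
    rw [sq_abs] at h2
    nlinarith
  have h1 := W.ev_nonneg hG hpoly (pd_co w)
  rw [ev_co W w t h] at h1
  simp only [eval_sub, eval_pow, eval_X, eval_C, sub_self] at h1
  have h2 := co_one_pos (G := G) hw
  have h3 : 0 < r ^ 2 := by positivity
  nlinarith

theorem TwoW.mem_spec {A B : Type} [Group A] [Fintype A] [Group B] [Fintype B] {a : A →* G}
    {b : B →* G} {W : Walk G} {P Q η : ℝ} (hW : TwoW W a b P Q) (hG : Folner G)
    (h : Eig a b P Q η) : (P + Q - η) ∈ W.spec := by
  obtain ⟨Y, hY, hact, w, hw, hη⟩ := h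
  have h1 := mem_spec_of_set W hG w hw (η - (P + Q - 1)) (fun y => by
    have h2 := hW ℝ (fun g => w (g • y))
    have h3 := hη y
    unfold avg at h3
    simp only [smul_eq_mul, one_smul] at h2
    unfold Walk.E
    rw [h2]
    linear_combination h3)
  have h4 : 1 - (η - (P + Q - 1)) = P + Q - η := by ring
  rw [h4] at h1
  exact h1

end Pool.SpecDense
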