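import Pool.Agent.Lib.MP_863a8d_al.SP.Defs

/-!
# The two finite subgroups of a spinal group
-/

set_option autoImplicit false

namespace Pool.SpecDense.Spinal

variable {B : Type} [Group B]

theorem a_injective (D : Spinal B) : Function.Injective D.a := by
  intro x y h
  have h1 : D.rot x (fun _ => 1) = D.rot y (fun _ => 1) := by
    have h2 := congrArg (fun g : D.Gp => (g : Equiv.Perm D.Pt) (fun _ => 1)) h
    exact h2
  have h3 := congrFun h1 0
  exact mul_right_cancel h3

theorem b_injective (D : Spinal B) (hker : ∀ z : B, (∀ n, D.ω n z = 1) → z = 1) :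
    Function.Injective D.b := by
  classical
  rw [injective_iff_map_eq_one]
  intro z hz
  refine hker z fun k => ?_
  let u : D.Pt := Function.update (fun _ => 1) k (D.g k)
  have hu : D.At u k := by
    refine ⟨fun i hi => ?_, ?_⟩
    · exact Function.update_of_ne hi.ne _ _
    · exact Function.update_self _ _ _
  have h1 : D.dir z u = u := by
    have h2 := congrArg (fun g : D.Gp => (g : Equiv.Perm D.Pt) u) hz
    exact h2
  have h3 := congrFun h1 (k + 1)
  rw [D.dir_pos z hu] at h3
  have h4 : u (k + 1) = 1 := Function.update_of_ne (Nat.succ_ne_self k) _ _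
  rw [h4, mul_one] at h3
  exact h3

theorem a_eq_b (D : Spinal B) {x : D.A 0} {z : B} (h : D.a x = D.b z) : x = 1 := by
  have h1 : D.rot x (fun _ => 1) = D.dir z (fun _ => 1) := by
    have h2 := congrArg (fun g : D.Gp => (g : Equiv.Perm D.Pt) (fun _ => 1)) h
    exact h2
  have h3 := congrFun h1 0
  have h4 : x * 1 = 1 := h3
  rwa [mul_one] at h4

theorem gen (D : Spinal B) :
    Subgroup.closure (Set.range D.a ∪ Set.range D.b) = (⊤ : Subgroup D.Gp) := by
  rw [eq_top_iff]
  rintro ⟨g, hg⟩ -
  have hle : D.G ≤ (Subgroup.closure (Set.range D.a ∪ Set.range D.b)).map D.G.subtype := by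
    refine sup_le ?_ ?_
    · rintro _ ⟨x, rfl⟩
      exact ⟨D.a x, Subgroup.subset_closure (Or.inl ⟨x, rfl⟩), rfl⟩
    · rintro _ ⟨z, rfl⟩
      exact ⟨D.b z, Subgroup.subset_closure (Or.inr ⟨z, rfl⟩), rfl⟩
  obtain ⟨k, hk, hkg⟩ := hle hg
  have : k = ⟨g, hg⟩ := Subtype.ext hkg
  rw [← this]
  exact hk

end Pool.SpecDense.Spinal
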