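import Mathlib

/-!
# Almost invariant integrable functions give Folner sets

Induction on the cardinality of the support of `h`: let `F = h.support`, `m > 0` the least value of `h` on `F`,
`h' = h - m 1_F ≥ 0`, whose support is strictly contained in `F`.
-/

set_option autoImplicit false

namespace Pool.SpecDense

theorem reiter {G : Type} [Group G] (K : Finset G) (h : G →₀ ℝ) (h0 : ∀ x, 0 ≤ h x) {ε : ℝ}
    (hK : ∑ k ∈ K, ∑ y ∈ h.support, max (h y - h (k * y)) 0 < ε * ∑ y ∈ h.support, h y) :
    ∃ F : Finset G, F.Nonempty ∧
      ∑ k ∈ K, ((((fun x => k * x) '' (F : Set G)) \ (F : Set G)).ncard : ℝ) <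
        ε * (F.card : ℝ) := by
  classical
  obtain ⟨n, hn⟩ : ∃ n, h.support.card = n := ⟨_, rfl⟩
  induction n using Nat.strong_induction_on generalizing h with
  | _ n ih =>
    set F : Finset G := h.support with hF
    have hmem : ∀ x, x ∈ F ↔ h x ≠ 0 := fun x => Finsupp.mem_support_iff
    have hnot : ∀ x, x ∉ F → h x = 0 := fun x hx => by
      by_contra hc
      exact hx ((hmem x).2 hc)
    have hne : F.Nonempty := by
      rw [Finset.nonempty_iff_ne_empty]
      intro he
      rw [he] at hK
      simp at hK
    obtain ⟨x₀, hx₀, hmin⟩ := Finset.exists_min_image F h hne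
    set m : ℝ := h x₀ with hm
    have hmpos : 0 < m := lt_of_le_of_ne (h0 x₀) (Ne.symm ((hmem x₀).1 hx₀))
    -- the boundary of `F`
    set D : G → ℝ := fun k => ((F.filter fun y => k * y ∉ F).card : ℝ) with hD
    have hncard : ∀ k : G,
        ((((fun x => k * x) '' (F : Set G)) \ (F : Set G)).ncard : ℝ) = D k := by
      intro k
      have h1 : ((fun x => k * x) '' (F : Set G)) \ (F : Set G) =
          (fun x => k * x) '' ((F.filter fun y => k * y ∉ F : Finset G) : Set G) := by
        ext x
        simp only [Set.mem_sdiff, Set.mem_image, Finset.mem_coe, Finset.mem_filter]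
        constructor
        · rintro ⟨⟨y, hy, rfl⟩, h2⟩
          exact ⟨y, ⟨hy, h2⟩, rfl⟩
        · rintro ⟨y, ⟨hy, h2⟩, rfl⟩
          exact ⟨⟨y, hy, rfl⟩, h2⟩
      rw [h1, Set.ncard_image_of_injective _ (mul_right_injective k), Set.ncard_coe_finset]
    by_cases hgood : ∑ k ∈ K, D k < ε * (F.card : ℝ)
    · refine ⟨F, hne, ?_⟩
      simp_rw [hncard]
      exact hgood
    · push Not at hgood
      -- the function `h'`
      let h' : G →₀ ℝ := Finsupp.onFinset F (fun x => if x ∈ F then h x - m else 0)
        (fun x hx => by
          by_contra hc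
          rw [if_neg hc] at hx
          exact hx rfl)
      have hh' : ∀ x, h' x = if x ∈ F then h x - m else 0 := fun x => rfl
      have h0' : ∀ x, 0 ≤ h' x := by
        intro x
        rw [hh']
        split_ifs with hx
        · exact sub_nonneg.2 (hmin x hx)
        · exact le_rfl
      have hsub : h'.support ⊆ F := Finsupp.support_onFinset_subset
      have hx₀' : x₀ ∉ h'.support := by
        rw [Finsupp.mem_support_iff, hh', if_pos hx₀, not_not, ← hm, sub_self]
      have hcard : h'.support.card < n := by
        rw [← hn]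
        exact Finset.card_lt_card ⟨hsub, fun hc => hx₀' (hc hx₀)⟩
      have hzero : ∀ x, x ∉ h'.support → h' x = 0 := fun x hx => by
        by_contra hc
        exact hx (Finsupp.mem_support_iff.2 hc)
      have hsum1 : ∑ y ∈ F, h y = m * F.card + ∑ y ∈ h'.support, h' y := by
        have e1 : ∑ y ∈ h'.support, h' y = ∑ y ∈ F, h' y :=
          Finset.sum_subset hsub fun x _ hx => hzero x hx
        rw [e1]
        have e2 : ∑ y ∈ F, h' y = ∑ y ∈ F, (h y - m) :=
          Finset.sum_congr rfl fun y hy => by rw [hh', if_pos hy]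
        rw [e2, Finset.sum_sub_distrib, Finset.sum_const, nsmul_eq_mul]
        ring
      have hsum2 : ∀ k, ∑ y ∈ F, max (h y - h (k * y)) 0 =
          m * D k + ∑ y ∈ h'.support, max (h' y - h' (k * y)) 0 := by
        intro k
        have e1 : ∑ y ∈ h'.support, max (h' y - h' (k * y)) 0 =
            ∑ y ∈ F, max (h' y - h' (k * y)) 0 := by
          refine Finset.sum_subset hsub fun x _ hx => ?_
          rw [hzero x hx, zero_sub]
          exact max_eq_right (neg_nonpos.2 (h0' _))
        rw [e1]
        have e2 : m * D k = ∑ y ∈ F, if k * y ∉ F then m else 0 := by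
          rw [← Finset.sum_filter, Finset.sum_const, nsmul_eq_mul, hD, mul_comm]
        rw [e2, ← Finset.sum_add_distrib]
        refine Finset.sum_congr rfl fun y hy => ?_
        by_cases hky : k * y ∈ F
        · rw [if_neg (not_not.2 hky), hh', hh', if_pos hy, if_pos hky, zero_add]
          congr 1
          ring
        · rw [if_pos hky, hh', hh', if_pos hy, if_neg hky, hnot _ hky, sub_zero, sub_zero,
            max_eq_left (h0 y), max_eq_left (sub_nonneg.2 (hmin y hy))]
          ring
      simp_rw [hsum2] at hK
      rw [Finset.sum_add_distrib, ← Finset.mul_sum, hsum1] at hK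
      refine ih _ hcard h' h0' ?_ rfl
      have h3 : m * (ε * (F.card : ℝ)) ≤ m * ∑ k ∈ K, D k :=
        mul_le_mul_of_nonneg_left hgood hmpos.le
      nlinarith

end Pool.SpecDense
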