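import Pool.Agent.Lib.MP_863a8d_al.SP.Sqrt
import Pool.Agent.Lib.MP_863a8d_al.SP.Reit

/-!
# Positive definite functions close to one give Folner sets
-/

set_option autoImplicit false

open scoped ENNReal

namespace Pool.SpecDense

variable {G : Type} [Group G]

namespace FolPD

lemma norm_Lt (g : G) (f : L2 G) : ‖Lt g f‖ = ‖f‖ := norm_ltransL g f

lemma Lt_one (f : L2 G) : Lt (1 : G) f = f := by
  apply lp.ext
  funext x
  rw [Lt_apply, inv_one, one_mul]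

lemma toReal2 : (2 : ℝ≥0∞).toReal = 2 := by norm_num

omit [Group G] in
lemma norm_sq_sum (f : L2 G) (F : Finset G) (hf : ∀ x, x ∉ F → (f : G → ℂ) x = 0) :
    ‖f‖ ^ 2 = ∑ x ∈ F, ‖(f : G → ℂ) x‖ ^ 2 := by
  have h := lp.norm_rpow_eq_tsum (p := 2) (by norm_num) f
  rw [toReal2, Real.rpow_two] at h
  rw [h, tsum_eq_sum (s := F)]
  · exact Finset.sum_congr rfl fun x _ => Real.rpow_two _
  · intro x hx
    rw [hf x hx, norm_zero, Real.rpow_two]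
    norm_num

omit [Group G] in
lemma sum_sq_le (f : L2 G) (F : Finset G) : ∑ x ∈ F, ‖(f : G → ℂ) x‖ ^ 2 ≤ ‖f‖ ^ 2 := by
  have h := lp.sum_rpow_le_norm_rpow (p := 2) (by norm_num) f F
  rw [toReal2, Real.rpow_two] at h
  refine le_trans (le_of_eq ?_) h
  exact Finset.sum_congr rfl fun x _ => (Real.rpow_two _).symm

omit [Group G] in
/-- truncation -/
lemma exists_trunc (η : L2 G) {ρ : ℝ} (hρ : 0 < ρ) :
    ∃ (F : Finset G) (η₀ : L2 G), (∀ x, x ∉ F → (η₀ : G → ℂ) x = 0) ∧ ‖η₀ - η‖ < ρ := by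
  classical
  have h := lp.hasSum_single (E := fun _ : G => ℂ) (p := 2) (by norm_num) η
  obtain ⟨F, hF⟩ := (h.eventually (Metric.ball_mem_nhds η hρ)).exists
  refine ⟨F, ∑ x ∈ F, lp.single 2 x ((η : G → ℂ) x), fun y hy => ?_, ?_⟩
  · rw [lp.coeFn_sum, Finset.sum_apply]
    refine Finset.sum_eq_zero fun x hx => ?_
    exact lp.single_apply_ne 2 x _ (fun h => hy (h ▸ hx))
  · rw [← dist_eq_norm]
    exact hF

lemma max_le_two (a b : ℂ) : max (‖a‖ ^ 2 - ‖b‖ ^ 2) 0 ≤ 2 * (‖a‖ * ‖a - b‖) := by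
  have h1 : ‖a‖ - ‖b‖ ≤ ‖a - b‖ := norm_sub_norm_le a b
  have ha := norm_nonneg a
  have hb := norm_nonneg b
  have hab := norm_nonneg (a - b)
  refine max_le ?_ (by positivity)
  rcases le_total ‖b‖ ‖a‖ with h | h
  · nlinarith [mul_le_mul_of_nonneg_left h1 ha, mul_nonneg (sub_nonneg.2 h) (sub_nonneg.2 h)]
  · have : ‖a‖ ^ 2 ≤ ‖b‖ ^ 2 := pow_le_pow_left₀ ha h 2
    have h3 : 0 ≤ ‖a‖ * ‖a - b‖ := mul_nonneg ha hab
    linarith

end FolPD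

open FolPD

theorem folner_of_good {G : Type} [Group G]
    (hyp : ∀ (K : Finset G) (ε : ℝ), 0 < ε → ∃ φ : G → ℝ, Good φ ∧ ∀ k ∈ K, 1 - ε ≤ φ k) :
    Folner G := by
  classical
  intro K ε hε
  set n : ℝ := (K.card : ℝ) with hn
  have hn0 : 0 ≤ n := Nat.cast_nonneg _
  set τ : ℝ := ε / (4 * (n + 1)) with hτ
  have hτ0 : 0 < τ := by positivity
  have hτn : 2 * n * τ < ε / 2 := by
    rw [hτ]
    rw [mul_div_assoc', div_lt_div_iff₀ (by positivity) (by norm_num)]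
    nlinarith
  obtain ⟨φ, hφ, hφK⟩ := hyp K (τ ^ 2 / 8) (by positivity)
  obtain ⟨η, hη⟩ := exists_sqrt hφ
  have hηn : ‖η‖ = 1 := by
    have h1 := hη 1
    rw [Lt_one, hφ.one] at h1
    have h2 : ‖η‖ ^ 2 = 1 := by
      rw [← h1]
      exact (inner_self_eq_norm_sq (𝕜 := ℂ) η).symm
    nlinarith [norm_nonneg η]
  have hsymm : ∀ g, φ g⁻¹ = φ g := by
    intro g
    have h1 : φ (1⁻¹ * g) = φ (g⁻¹ * 1) := hφ.pd.1 1 g
    rw [inv_one, one_mul, mul_one] at h1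
    exact h1.symm
  have hinv : ∀ k ∈ K, ‖Lt k⁻¹ η - η‖ ≤ τ / 2 := by
    intro k hk
    have h1 := norm_sub_sq (𝕜 := ℂ) (Lt k⁻¹ η) η
    rw [norm_Lt, hηn] at h1
    have h2 : RCLike.re (inner ℂ (Lt k⁻¹ η) η) = φ k := by
      rw [← hsymm k]
      exact hη k⁻¹
    rw [h2] at h1
    have h3 := hφK k hk
    refine le_of_sq_le_sq ?_ (by positivity)
    nlinarith
  set ρ : ℝ := min (τ / 4) (1 / 2) with hρ
  have hρ0 : 0 < ρ := lt_min (by positivity) (by norm_num)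
  have hρ1 : ρ ≤ τ / 4 := min_le_left _ _
  have hρ2 : ρ ≤ 1 / 2 := min_le_right _ _
  obtain ⟨F, η₀, hF, hη₀⟩ := exists_trunc η hρ0
  have hη₀n : 1 / 2 ≤ ‖η₀‖ := by
    have h1 : ‖η‖ - ‖η₀‖ ≤ ‖η - η₀‖ := norm_sub_norm_le _ _
    rw [norm_sub_rev] at h1
    linarith
  have hinv₀ : ∀ k ∈ K, ‖η₀ - Lt k⁻¹ η₀‖ ≤ τ := by
    intro k hk
    have h1 : η₀ - Lt k⁻¹ η₀ = (η₀ - η) - (Lt k⁻¹ η - η) - Lt k⁻¹ (η₀ - η) := by
      rw [map_sub]
      abel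
    rw [h1]
    refine (norm_sub_le _ _).trans ?_
    rw [norm_Lt]
    have h2 := norm_sub_le (η₀ - η) (Lt k⁻¹ η - η)
    have h3 := hinv k hk
    linarith
  -- the function `h`
  let h : G →₀ ℝ := Finsupp.onFinset F (fun y => ‖(η₀ : G → ℂ) y‖ ^ 2) (fun y hy => by
    by_contra hc
    apply hy
    rw [hF y hc, norm_zero]
    norm_num)
  have hh : ∀ y, h y = ‖(η₀ : G → ℂ) y‖ ^ 2 := fun y => rfl
  have hsupp : ∀ x, x ∉ h.support → (η₀ : G → ℂ) x = 0 := by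
    intro x hx
    rw [Finsupp.notMem_support_iff, hh] at hx
    exact norm_eq_zero.1 (pow_eq_zero_iff (two_ne_zero)|>.1 hx)
  have hsum : ∑ y ∈ h.support, h y = ‖η₀‖ ^ 2 := (norm_sq_sum η₀ h.support hsupp).symm
  have hk : ∀ k ∈ K, ∑ y ∈ h.support, max (h y - h (k * y)) 0 ≤ 2 * (‖η₀‖ * τ) := by
    intro k hk
    have h1 : ∑ y ∈ h.support, max (h y - h (k * y)) 0 ≤
        2 * ∑ y ∈ h.support, ‖(η₀ : G → ℂ) y‖ * ‖((η₀ - Lt k⁻¹ η₀ : L2 G) : G → ℂ) y‖ := by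
      rw [Finset.mul_sum]
      refine Finset.sum_le_sum fun y _ => ?_
      rw [hh, hh]
      have h2 : ((η₀ - Lt k⁻¹ η₀ : L2 G) : G → ℂ) y = (η₀ : G → ℂ) y - (η₀ : G → ℂ) (k * y) := by
        rw [lp.coeFn_sub, Pi.sub_apply, Lt_apply, inv_inv]
      rw [h2]
      exact max_le_two _ _
    refine h1.trans (mul_le_mul_of_nonneg_left ?_ (by norm_num))
    refine (Real.sum_mul_le_sqrt_mul_sqrt _ _ _).trans ?_
    refine mul_le_mul ?_ ?_ (Real.sqrt_nonneg _) (norm_nonneg _)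
    · rw [← Real.sqrt_sq (norm_nonneg η₀)]
      exact Real.sqrt_le_sqrt (sum_sq_le η₀ _)
    · refine le_trans ?_ (hinv₀ k hk)
      rw [← Real.sqrt_sq (norm_nonneg (η₀ - Lt k⁻¹ η₀))]
      exact Real.sqrt_le_sqrt (sum_sq_le _ _)
  obtain ⟨F', hF', hF''⟩ := reiter K h (fun x => by rw [hh]; positivity) (ε := ε) (by
    rw [hsum]
    refine (Finset.sum_le_sum hk).trans_lt ?_
    rw [Finset.sum_const, nsmul_eq_mul, ← hn]
    have h1 : 0 < ‖η₀‖ := lt_of_lt_of_le (by norm_num) hη₀n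
    have h2 : n * (2 * (‖η₀‖ * τ)) = (2 * n * τ) * ‖η₀‖ := by ring
    rw [h2, sq, ← mul_assoc]
    refine mul_lt_mul_of_pos_right ?_ h1
    nlinarith)
  refine ⟨F', hF', fun k hk => lt_of_le_of_lt ?_ hF''⟩
  exact Finset.single_le_sum
    (f := fun k => ((((fun x => k * x) '' (F' : Set G)) \ (F' : Set G)).ncard : ℝ))
    (fun _ _ => Nat.cast_nonneg _) hk

end Pool.SpecDense
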