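import Pool.Agent.Lib.MP_863a8d_al.SP.Defs

/-!
# From the generators to all elements
-/

set_option autoImplicit false

namespace Pool.SpecDense

section

variable {G : Type} [Group G]

namespace Gen

lemma symm {φ : G → ℝ} (h : Good φ) (g : G) : φ g⁻¹ = φ g := by
  have h1 : φ (1⁻¹ * g) = φ (g⁻¹ * 1) := h.pd.1 1 g
  rw [inv_one, one_mul, mul_one] at h1
  exact h1.symm

lemma le_one {φ : G → ℝ} (h : Good φ) (g : G) : φ g ≤ 1 := by
  have h1 := PSDk.sq_le h.pd 1 g
  have e1 : φ ((1 : G)⁻¹ * g) = φ g := by rw [inv_one, one_mul]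
  have e2 : φ ((1 : G)⁻¹ * 1) = 1 := by rw [inv_one, one_mul, h.one]
  have e3 : φ (g⁻¹ * g) = 1 := by rw [inv_mul_cancel, h.one]
  simp only [e1, e2, e3] at h1
  nlinarith

end Gen

open Gen

theorem good_mul {φ : G → ℝ} (h : Good φ) (g k : G) :
    1 - φ (g * k) ≤ 2 * (1 - φ g) + 2 * (1 - φ k) := by
  let f : Fin 3 → G := ![1, g, g * k]
  have h1 := (PSDk.comp h.pd f).2 Finset.univ ![1, -2, 1]
  simp only [Fin.sum_univ_three] at h1
  have f0 : f 0 = 1 := rfl
  have f1 : f 1 = g := rfl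
  have f2 : f 2 = g * k := rfl
  simp only [f0, f1, f2, Matrix.cons_val_zero, Matrix.cons_val_one, Matrix.cons_val_two,
    Matrix.head_cons, Matrix.tail_cons] at h1
  have e1 : φ ((1 : G)⁻¹ * 1) = 1 := by rw [inv_one, one_mul, h.one]
  have e2 : φ ((1 : G)⁻¹ * g) = φ g := by rw [inv_one, one_mul]
  have e3 : φ ((1 : G)⁻¹ * (g * k)) = φ (g * k) := by rw [inv_one, one_mul]
  have e4 : φ (g⁻¹ * 1) = φ g := by rw [mul_one, Gen.symm h]
  have e5 : φ (g⁻¹ * g) = 1 := by rw [inv_mul_cancel, h.one]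
  have e6 : φ (g⁻¹ * (g * k)) = φ k := by rw [inv_mul_cancel_left]
  have e7 : φ ((g * k)⁻¹ * 1) = φ (g * k) := by rw [mul_one, Gen.symm h]
  have e8 : φ ((g * k)⁻¹ * g) = φ k := by
    rw [mul_inv_rev, mul_assoc, inv_mul_cancel, mul_one, Gen.symm h]
  have e9 : φ ((g * k)⁻¹ * (g * k)) = 1 := by rw [inv_mul_cancel, h.one]
  rw [e1, e2, e3, e4, e5, e6, e7, e8, e9] at h1
  linarith

variable {A : Type} [Group A] [Fintype A] {a : A →* G}

theorem good_of_avg {φ : G → ℝ} (h : Good φ) {ε : ℝ} (hε : 1 - ε ≤ avg (fun x : A => φ (a x)))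
    (x : A) : 1 - (Fintype.card A : ℝ) * ε ≤ φ (a x) := by
  have hc : (0 : ℝ) < (Fintype.card A : ℝ) := by exact_mod_cast Fintype.card_pos
  unfold avg at hε
  rw [le_div_iff₀ hc] at hε
  have h1 : ∑ y : A, (1 - φ (a y)) = (Fintype.card A : ℝ) - ∑ y : A, φ (a y) := by
    rw [Finset.sum_sub_distrib, Finset.sum_const, Finset.card_univ, nsmul_eq_mul, mul_one]
  have h2 : 1 - φ (a x) ≤ ∑ y : A, (1 - φ (a y)) :=
    Finset.single_le_sum (f := fun y : A => 1 - φ (a y))
      (fun y _ => sub_nonneg.2 (Gen.le_one h (a y))) (Finset.mem_univ x)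
  nlinarith

variable {B : Type} [Group B] [Fintype B] {b : B →* G}

theorem hyp_of_avg (hgen : Subgroup.closure (Set.range a ∪ Set.range b) = ⊤)
    (hyp : ∀ k : ℕ, ∃ φ : G → ℝ, Good φ ∧
      1 - (1 / 2 : ℝ) ^ k ≤ avg (fun x : A => φ (a x)) ∧
      1 - (1 / 2 : ℝ) ^ k ≤ avg (fun z : B => φ (b z)))
    (K : Finset G) (ε : ℝ) (hε : 0 < ε) : ∃ φ : G → ℝ, Good φ ∧ ∀ k ∈ K, 1 - ε ≤ φ k := by
  choose φ hφ h1 h2 using hyp
  have hpow : ∀ (c δ : ℝ), 0 < δ → ∀ᶠ k : ℕ in Filter.atTop, c * (1 / 2 : ℝ) ^ k < δ := by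
    intro c δ hδ
    have h3 : Filter.Tendsto (fun k : ℕ => c * (1 / 2 : ℝ) ^ k) Filter.atTop (nhds (c * 0)) :=
      (tendsto_pow_atTop_nhds_zero_of_lt_one (by norm_num) (by norm_num)).const_mul c
    rw [mul_zero] at h3
    exact h3.eventually (gt_mem_nhds hδ)
  have key : ∀ g : G, ∀ δ : ℝ, 0 < δ → ∀ᶠ k : ℕ in Filter.atTop, 1 - δ ≤ φ k g := by
    intro g
    have hg : g ∈ Subgroup.closure (Set.range a ∪ Set.range b) := by
      rw [hgen]
      exact Subgroup.mem_top g
    induction hg using Subgroup.closure_induction with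
    | mem x hx =>
        intro δ hδ
        rcases hx with ⟨y, rfl⟩ | ⟨y, rfl⟩
        · filter_upwards [hpow (Fintype.card A) δ hδ] with k hk
          have := good_of_avg (hφ k) (h1 k) y
          linarith
        · filter_upwards [hpow (Fintype.card B) δ hδ] with k hk
          have := good_of_avg (hφ k) (h2 k) y
          linarith
    | one =>
        intro δ hδ
        filter_upwards with k
        rw [(hφ k).one]
        linarith
    | mul x y _ _ hx hy =>
        intro δ hδ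
        filter_upwards [hx (δ / 4) (by linarith), hy (δ / 4) (by linarith)] with k h3 h4
        have := good_mul (hφ k) x y
        linarith
    | inv x _ hx =>
        intro δ hδ
        filter_upwards [hx δ hδ] with k h3
        rw [Gen.symm (hφ k)]
        exact h3
  have hall : ∀ᶠ n : ℕ in Filter.atTop, ∀ k ∈ K, 1 - ε ≤ φ n k := by
    rw [Filter.eventually_all_finset]
    intro k _
    exact key k ε hε
  obtain ⟨n, hn⟩ := hall.exists
  exact ⟨φ n, hφ n, hn⟩

end

end Pool.SpecDense
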