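import Pool.Agent.Lib.MP_863a8d_al.SP.Schur

/-!
# The recursion

Given a finite `G'`-set `Y` with `w : Y → ℝ`, `w ≠ 0` and `avg_x w (a' x • y) + avg_z w (b' z • y) = κ w y`.
Let `Y' = A × (A → A') × Y` with the action of `G`
  `g • (x, r, y) = (p g * x, fun δ => p' (sec g (x * δ)) * r δ, sec g x • y)`.
-/

set_option autoImplicit false

namespace Pool.SpecDense

variable {A B G A' G' : Type} [Group A] [Group B] [Group G] [Group A'] [Group G']
    [Fintype A] [Fintype B] [Fintype A']

namespace Ind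

lemma sec_one {a : A →* G} {b : B →* G} {a' : A' →* G'} {b' : B →* G'} {ω : B →* A'}
    {g₀ : A} (S : Step a b a' b' ω g₀) (x : A) : S.sec 1 x = 1 := by
  have h := S.sec_mul 1 1 x
  rw [mul_one, map_one, one_mul] at h
  exact (mul_eq_left.1 h.symm)

/-- the action -/
@[instance_reducible]
def act {a : A →* G} {b : B →* G} {a' : A' →* G'} {b' : B →* G'} {ω : B →* A'}
    {g₀ : A} (S : Step a b a' b' ω g₀) (p' : G' →* A') (Y : Type) [MulAction G' Y] :
    MulAction G (A × (A → A') × Y) where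
  smul g v := (S.p g * v.1, fun δ => p' (S.sec g (v.1 * δ)) * v.2.1 δ, S.sec g v.1 • v.2.2)
  one_smul v := by
    obtain ⟨x, r, y⟩ := v
    show (S.p 1 * x, (fun δ => p' (S.sec 1 (x * δ)) * r δ), S.sec 1 x • y) = (x, r, y)
    simp only [map_one, one_mul, sec_one, one_smul]
  mul_smul g h v := by
    obtain ⟨x, r, y⟩ := v
    show (S.p (g * h) * x, (fun δ => p' (S.sec (g * h) (x * δ)) * r δ), S.sec (g * h) x • y) =
      (S.p g * (S.p h * x), (fun δ => p' (S.sec g (S.p h * x * δ)) * (p' (S.sec h (x * δ)) * r δ)),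
        S.sec g (S.p h * x) • S.sec h x • y)
    simp only [map_mul, S.sec_mul, mul_smul, mul_assoc]

variable {a : A →* G} {b : B →* G} {a' : A' →* G'} {b' : B →* G'} {ω : B →* A'}
    {g₀ : A} (S : Step a b a' b' ω g₀) (p' : G' →* A') {Y : Type} [MulAction G' Y]

open Classical in
/-- the weight -/
noncomputable def u (g' r : A') : ℝ := (if r = 1 then 1 else 0) - (if r = g' then 1 else 0)

lemma u_one {g' : A'} (h : g' ≠ 1) : u g' 1 = 1 := by
  unfold u
  rw [if_pos rfl, if_neg (fun h' => h h'.symm), sub_zero]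

lemma sum_u (g' : A') : ∑ r, u g' r = 0 := by
  classical
  unfold u
  rw [Finset.sum_sub_distrib, Finset.sum_ite_eq', Finset.sum_ite_eq']
  simp

lemma avg_u (g' : A') (hω : Function.Surjective ω) (r : A') : avg (fun z : B => u g' (ω z * r)) = 0 := by
  rw [avg_comp_surj hω (fun x => u g' (x * r))]
  unfold avg
  rw [Fintype.sum_equiv (Equiv.mulRight r) (fun x => u g' (x * r)) (u g') (fun x => rfl), sum_u,
    zero_div]

lemma avg_mul_left {X : Type} [Fintype X] (c : ℝ) (f : X → ℝ) :
    avg (fun x => c * f x) = c * avg f := by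
  unfold avg
  rw [← Finset.mul_sum, mul_div_assoc]

lemma avg_const {X : Type} [Fintype X] [Nonempty X] (c : ℝ) : avg (fun _ : X => c) = c := by
  unfold avg
  rw [Finset.sum_const, Finset.card_univ, nsmul_eq_mul]
  have : (Fintype.card X : ℝ) ≠ 0 := by exact_mod_cast Fintype.card_ne_zero
  field_simp

/-- the eigenfunction -/
noncomputable def F (D : Finset A) (g' : A') (w : Y → ℝ) (v : A × (A → A') × Y) : ℝ :=
  (∏ δ ∈ D, u g' (v.2.1 δ)) * w v.2.2

/-- the value of the average over `B` of `F`, up to the product -/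
noncomputable def H [DecidableEq A] (g₀ : A) (D : Finset A) (eA eB w : ℝ) (x : A) : ℝ :=
  if x = 1 then eB else if x = g₀ then eA else if x⁻¹ * g₀ ∈ D then 0 else w

open Classical in
lemma avg_B (hω : Function.Surjective ω) (hg : g₀ ≠ 1) (hp'a : ∀ x, p' (a' x) = x)
    (hp'b : ∀ z, p' (b' z) = 1) (D : Finset A) (h1 : (1 : A) ∉ D) (h2 : g₀ ∉ D) (g' : A')
    (w : Y → ℝ) (x : A) (r : A → A') (y : Y) :
    avg (fun z : B => F D g' w ((act S p' Y).toSMul.smul (b z) (x, r, y))) =
      (∏ δ ∈ D, u g' (r δ)) * H g₀ D (avg fun x : A' => w (a' x • y)) (avg fun z : B => w (b' z • y))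
        (w y) x := by
  have hval : ∀ z : B, F D g' w ((act S p' Y).toSMul.smul (b z) (x, r, y)) =
      (∏ δ ∈ D, u g' (p' (S.sec (b z) (x * δ)) * r δ)) * w (S.sec (b z) x • y) := fun z => rfl
  simp_rw [hval]
  by_cases hx1 : x = 1
  · subst hx1
    have hprod : ∀ z : B, ∏ δ ∈ D, u g' (p' (S.sec (b z) (1 * δ)) * r δ) = ∏ δ ∈ D, u g' (r δ) := by
      intro z
      refine Finset.prod_congr rfl fun δ hδ => ?_
      rw [one_mul, S.sec_b_ne z δ (fun h => h1 (h ▸ hδ)) (fun h => h2 (h ▸ hδ)), map_one, one_mul]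
    simp_rw [hprod, S.sec_b_one]
    rw [avg_mul_left]
    unfold H
    rw [if_pos rfl]
  · by_cases hx2 : x = g₀
    · subst hx2
      have hprod : ∀ z : B, ∏ δ ∈ D, u g' (p' (S.sec (b z) (x * δ)) * r δ) =
          ∏ δ ∈ D, u g' (r δ) := by
        intro z
        refine Finset.prod_congr rfl fun δ hδ => ?_
        by_cases h : x * δ = 1
        · rw [h, S.sec_b_one, hp'b, one_mul]
        · rw [S.sec_b_ne z _ h (fun h' => h1 (by
            rw [mul_eq_left] at h'
            exact h' ▸ hδ)), map_one, one_mul]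
      simp_rw [hprod, S.sec_b_g]
      rw [avg_mul_left, avg_comp_surj hω (fun x => w (a' x • y))]
      unfold H
      rw [if_neg hx1, if_pos rfl]
    · have hsec : ∀ z : B, S.sec (b z) x = 1 := fun z => S.sec_b_ne z x hx1 hx2
      simp_rw [hsec, one_smul]
      unfold H
      rw [if_neg hx1, if_neg hx2]
      -- the factors
      have hfac : ∀ (z : B) (δ : A), δ ≠ x⁻¹ * g₀ → p' (S.sec (b z) (x * δ)) = 1 := by
        intro z δ hδ
        by_cases h : x * δ = 1
        · rw [h, S.sec_b_one, hp'b]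
        · rw [S.sec_b_ne z _ h (fun h' => hδ (by rw [← h', inv_mul_cancel_left])), map_one]
      by_cases hD : x⁻¹ * g₀ ∈ D
      · rw [if_pos hD, mul_zero]
        have hprod : ∀ z : B, (∏ δ ∈ D, u g' (p' (S.sec (b z) (x * δ)) * r δ)) * w y =
            ((∏ δ ∈ D.erase (x⁻¹ * g₀), u g' (r δ)) * w y) * u g' (ω z * r (x⁻¹ * g₀)) := by
          intro z
          rw [← Finset.mul_prod_erase D _ hD, mul_inv_cancel_left, S.sec_b_g, hp'a]
          have : ∏ δ ∈ D.erase (x⁻¹ * g₀), u g' (p' (S.sec (b z) (x * δ)) * r δ) =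
              ∏ δ ∈ D.erase (x⁻¹ * g₀), u g' (r δ) := by
            refine Finset.prod_congr rfl fun δ hδ => ?_
            rw [hfac z δ (Finset.ne_of_mem_erase hδ), one_mul]
          rw [this]
          ring
        simp_rw [hprod]
        rw [avg_mul_left, avg_u g' hω, mul_zero]
      · rw [if_neg hD]
        have hprod : ∀ z : B, ∏ δ ∈ D, u g' (p' (S.sec (b z) (x * δ)) * r δ) =
            ∏ δ ∈ D, u g' (r δ) := by
          intro z
          refine Finset.prod_congr rfl fun δ hδ => ?_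
          rw [hfac z δ (fun h => hD (h ▸ hδ)), one_mul]
        simp_rw [hprod]
        exact avg_const _

open Classical in
lemma avg_H (hg : g₀ ≠ 1) (D : Finset A) (h1 : (1 : A) ∉ D) (h2 : g₀ ∉ D) (eA eB w : ℝ) (x : A) :
    avg (fun x' : A => H g₀ D eA eB w (x' * x)) =
      (eA + eB + ((Fintype.card A : ℝ) - 2 - D.card) * w) / (Fintype.card A : ℝ) := by
  unfold avg
  congr 1
  rw [Fintype.sum_equiv (Equiv.mulRight x) (fun x' : A => H g₀ D eA eB w (x' * x))
    (fun x' => H g₀ D eA eB w x') (fun x' => rfl)]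
  -- the set of x with x⁻¹ g₀ ∈ D
  have hsplit : ∀ x : A, H g₀ D eA eB w x = w + (if x = 1 then eB - w else 0) +
      (if x = g₀ then eA - w else 0) + (if x ∈ D.image (fun δ => g₀ * δ⁻¹) then -w else 0) := by
    intro x
    have hmem : x ∈ D.image (fun δ => g₀ * δ⁻¹) ↔ x⁻¹ * g₀ ∈ D := by
      rw [Finset.mem_image]
      constructor
      · rintro ⟨δ, hδ, rfl⟩
        rw [mul_inv_rev, inv_inv, mul_assoc, inv_mul_cancel, mul_one]
        exact hδ
      · intro h
        exact ⟨_, h, by rw [mul_inv_rev, inv_inv, mul_inv_cancel_left]⟩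
    unfold H
    by_cases hx1 : x = 1
    · have hx2 : x ≠ g₀ := fun h => hg (h ▸ hx1)
      have hx3 : ¬ x ∈ D.image (fun δ => g₀ * δ⁻¹) := by
        rw [hmem, hx1, inv_one, one_mul]
        exact h2
      rw [if_pos hx1, if_pos hx1, if_neg hx2, if_neg hx3]
      ring
    · rw [if_neg hx1, if_neg hx1]
      by_cases hx2 : x = g₀
      · have hx3 : ¬ x ∈ D.image (fun δ => g₀ * δ⁻¹) := by
          rw [hmem, hx2, inv_mul_cancel]
          exact h1
        rw [if_pos hx2, if_pos hx2, if_neg hx3]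
        ring
      · rw [if_neg hx2, if_neg hx2]
        by_cases hx3 : x⁻¹ * g₀ ∈ D
        · rw [if_pos hx3, if_pos (hmem.2 hx3)]
          ring
        · rw [if_neg hx3, if_neg (fun h => hx3 (hmem.1 h))]
          ring
  simp_rw [hsplit]
  rw [Finset.sum_add_distrib, Finset.sum_add_distrib, Finset.sum_add_distrib,
    Finset.sum_ite_eq', Finset.sum_ite_eq', Finset.sum_const, Finset.card_univ,
    ← Finset.sum_filter, Finset.sum_const]
  have hcard : (Finset.univ.filter fun x => x ∈ D.image (fun δ => g₀ * δ⁻¹)).card = D.card := by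
    rw [Finset.filter_mem_eq_inter, Finset.univ_inter]
    exact Finset.card_image_of_injective _ (fun δ δ' h => inv_injective (mul_left_cancel h))
  rw [hcard, if_pos (Finset.mem_univ _), if_pos (Finset.mem_univ _), nsmul_eq_mul, nsmul_eq_mul]
  ring

end Ind

open Ind

theorem Step.ind {a : A →* G} {b : B →* G} {a' : A' →* G'} {b' : B →* G'} {ω : B →* A'}
    {g₀ : A} (S : Step a b a' b' ω g₀) (hg : g₀ ≠ 1) (hω : Function.Surjective ω) (p' : G' →* A')
    (hp'a : ∀ x, p' (a' x) = x) (hp'b : ∀ z, p' (b' z) = 1) (g' : A') (hg' : g' ≠ 1) {κ : ℝ}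
    (h : Eig a' b' 1 1 κ) (j : ℕ) (hj : j + 2 ≤ Fintype.card A) :
    Lam a b ((κ + j) / (Fintype.card A : ℝ)) := by
  classical
  obtain ⟨Y, hY, hact, w, hw, hκ⟩ := h
  -- the set D
  have hcard2 : ({1, g₀} : Finset A).card = 2 := Finset.card_pair hg.symm
  have hle : Fintype.card A - 2 - j ≤ (Finset.univ \ ({1, g₀} : Finset A)).card := by
    rw [Finset.card_sdiff_of_subset (Finset.subset_univ _), hcard2, Finset.card_univ]
    omega
  obtain ⟨D, hD, hDcard⟩ := Finset.exists_subset_card_eq hle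
  have h1 : (1 : A) ∉ D := fun h => by
    have := hD h
    simp at this
  have h2 : g₀ ∉ D := fun h => by
    have := hD h
    simp at this
  have hDr : ((Fintype.card A : ℝ) - 2 - D.card) = j := by
    have : D.card + 2 + j = Fintype.card A := by omega
    rw [← this]
    push_cast
    ring
  let _ : MulAction G (A × (A → A') × Y) := act S p' Y
  refine ⟨A × (A → A') × Y, inferInstance, act S p' Y, F D g' w, ?_, ?_, ?_⟩
  · obtain ⟨y, hy⟩ := Function.ne_iff.1 hw
    intro h0
    have h3 := congrFun h0 ((1 : A), (fun _ => (1 : A')), y)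
    unfold F at h3
    simp only [u_one hg', Finset.prod_const_one, one_mul] at h3
    exact hy h3
  · rintro x ⟨x', r, y⟩
    show (∏ δ ∈ D, u g' (p' (S.sec (a x) (x' * δ)) * r δ)) * w (S.sec (a x) x' • y) =
      (∏ δ ∈ D, u g' (r δ)) * w y
    simp only [S.sec_a, map_one, one_mul, one_smul]
  · rintro ⟨x, r, y⟩
    have hax : ∀ x' : A, (act S p' Y).toSMul.smul (a x') (x, r, y) = (x' * x, r, y) := by
      intro x'
      show (S.p (a x') * x, (fun δ => p' (S.sec (a x') (x * δ)) * r δ), S.sec (a x') x • y) = _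
      simp only [S.p_a, S.sec_a, map_one, one_mul, one_smul]
    show avg (fun x' : A => avg (fun z : B =>
      F D g' w ((act S p' Y).toSMul.smul (b z) ((act S p' Y).toSMul.smul (a x') (x, r, y))))) = _
    simp_rw [hax, avg_B S p' hω hg hp'a hp'b D h1 h2 g' w]
    rw [avg_mul_left, avg_H hg D h1 h2, hDr]
    have h3 := hκ y
    rw [one_mul, one_mul] at h3
    rw [h3]
    show _ = (κ + j) / (Fintype.card A : ℝ) * ((∏ δ ∈ D, u g' (r δ)) * w y)
    ring

end Pool.SpecDense
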