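import Pool.Agent.Lib.MP_863a8d_al.SP.Defs
import Pool.Agent.Lib.MP_863a8d_al.IV.Near

/-!
# Two projections

`ψ` is positive definite, invariant under `A` in the sense `ψ (a x) = 1`. In the GNS space with cyclic
vector `v` let `E` be the average of `v` over `B`; the coefficient of `w = √t • v + E` is close to one
on both subgroups in the mean.
-/

set_option autoImplicit false

namespace Pool.SpecDense

section abs

variable {A G V : Type} [Group A] [Fintype A] [Group G] [SeminormedAddCommGroup V]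
  [InnerProductSpace ℝ V]

/-- average of a vector over a finite subgroup -/
noncomputable def Proj2_av (σ : G →* Module.End ℝ V) (a : A →* G) (w : V) : V :=
  ((Fintype.card A : ℝ))⁻¹ • ∑ x : A, σ (a x) w

variable (σ : G →* Module.End ℝ V) (a : A →* G)

theorem Proj2_inner_av (w w' : V) : (inner ℝ (Proj2_av σ a w) w' : ℝ) =
    avg (fun x : A => (inner ℝ (σ (a x) w) w' : ℝ)) := by
  unfold Proj2_av avg
  rw [real_inner_smul_left, sum_inner, div_eq_inv_mul]

theorem Proj2_av_inv (w : V) (x : A) : σ (a x) (Proj2_av σ a w) = Proj2_av σ a w := by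
  unfold Proj2_av
  rw [map_smul, map_sum]
  congr 1
  refine Fintype.sum_equiv (Equiv.mulLeft x) _ _ fun y => ?_
  rw [← Module.End.mul_apply, ← map_mul, ← map_mul]
  rfl

omit [Group A] in
theorem Proj2_avg_const [Nonempty A] (c : ℝ) : avg (fun _ : A => c) = c := by
  unfold avg
  rw [Finset.sum_const, Finset.card_univ, nsmul_eq_mul]
  have : (Fintype.card A : ℝ) ≠ 0 := by exact_mod_cast Fintype.card_ne_zero
  field_simp

theorem Proj2_inner_av_of_inv (hσ : ∀ g u v, (inner ℝ (σ g u) (σ g v) : ℝ) = inner ℝ u v) (w w' : V)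
    (hw' : ∀ x : A, (inner ℝ w (σ (a x) w') : ℝ) = inner ℝ w w') :
    (inner ℝ (Proj2_av σ a w) w' : ℝ) = inner ℝ w w' := by
  rw [Proj2_inner_av]
  have h : ∀ x : A, (inner ℝ (σ (a x) w) w' : ℝ) = inner ℝ w w' := by
    intro x
    rw [Dich.inner_shift σ hσ, ← map_inv, hw']
  simp_rw [h]
  exact Proj2_avg_const _

theorem Proj2_inner_av_av (hσ : ∀ g u v, (inner ℝ (σ g u) (σ g v) : ℝ) = inner ℝ u v) (w : V) :
    (inner ℝ (Proj2_av σ a w) (Proj2_av σ a w) : ℝ) = inner ℝ (Proj2_av σ a w) w := by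
  rw [Proj2_inner_av_of_inv σ a hσ w (Proj2_av σ a w) (fun x => by rw [Proj2_av_inv]),
    real_inner_comm]

theorem Proj2_av_add (w w' : V) : Proj2_av σ a (w + w') = Proj2_av σ a w + Proj2_av σ a w' := by
  unfold Proj2_av
  simp_rw [map_add]
  rw [Finset.sum_add_distrib, smul_add]

theorem Proj2_av_smul (c : ℝ) (w : V) : Proj2_av σ a (c • w) = c • Proj2_av σ a w := by
  unfold Proj2_av
  simp_rw [map_smul]
  rw [← Finset.smul_sum, smul_comm]

theorem Proj2_av_of_inv (w : V) (hw : ∀ x : A, σ (a x) w = w) : Proj2_av σ a w = w := by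
  unfold Proj2_av
  simp_rw [hw]
  rw [Finset.sum_const, Finset.card_univ, ← Nat.cast_smul_eq_nsmul ℝ, smul_smul,
    inv_mul_cancel₀ (by exact_mod_cast Fintype.card_ne_zero), one_smul]

/-- finitely supported coefficients -/
def Proj2_fs (w w' : V) : Prop := {g : G | (inner ℝ (σ g w) w' : ℝ) ≠ 0}.Finite

theorem Proj2_fs_add {w1 w2 w' : V} (h1 : Proj2_fs σ w1 w') (h2 : Proj2_fs σ w2 w') :
    Proj2_fs σ (w1 + w2) w' := by
  refine (h1.union h2).subset fun g hg => ?_
  by_contra hn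
  rw [Set.mem_union, not_or] at hn
  apply hg
  have e1 : (inner ℝ (σ g w1) w' : ℝ) = 0 := by
    by_contra hc
    exact hn.1 hc
  have e2 : (inner ℝ (σ g w2) w' : ℝ) = 0 := by
    by_contra hc
    exact hn.2 hc
  rw [map_add, inner_add_left, e1, e2, add_zero]

theorem Proj2_fs_smul {w w' : V} (c : ℝ) (h : Proj2_fs σ w w') : Proj2_fs σ (c • w) w' := by
  refine h.subset fun g hg => ?_
  intro hc
  apply hg
  rw [map_smul, real_inner_smul_left, hc, mul_zero]

theorem Proj2_fs_zero (w' : V) : Proj2_fs σ 0 w' := by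
  refine Set.finite_empty.subset fun g hg => ?_
  exact absurd (by rw [map_zero, inner_zero_left]) hg

theorem Proj2_fs_sum {ι : Type} (s : Finset ι) (f : ι → V) (w' : V)
    (h : ∀ i ∈ s, Proj2_fs σ (f i) w') : Proj2_fs σ (∑ i ∈ s, f i) w' := by
  classical
  induction s using Finset.induction_on with
  | empty => exact Proj2_fs_zero σ w'
  | insert i s hi ih =>
      rw [Finset.sum_insert hi]
      exact Proj2_fs_add σ (h i (Finset.mem_insert_self i s))
        (ih fun j hj => h j (Finset.mem_insert_of_mem hj))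

theorem Proj2_fs_shift {w w' : V} (k : G) (h : Proj2_fs σ w w') : Proj2_fs σ (σ k w) w' := by
  have hf : Set.InjOn (fun g : G => g * k) ((fun g : G => g * k) ⁻¹' {g : G | (inner ℝ (σ g w) w' : ℝ) ≠ 0}) :=
    fun x _ y _ hxy => mul_right_cancel hxy
  refine (Set.Finite.preimage hf h).subset fun g hg => ?_
  show (inner ℝ (σ (g * k) w) w' : ℝ) ≠ 0
  rw [map_mul, Module.End.mul_apply]
  exact hg

theorem Proj2_fs_av {w w' : V} (h : Proj2_fs σ w w') : Proj2_fs σ (Proj2_av σ a w) w' :=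
  Proj2_fs_smul σ _ (Proj2_fs_sum σ _ _ _ fun _ _ => Proj2_fs_shift σ _ h)

theorem Proj2_fs_symm (hσ : ∀ g u v, (inner ℝ (σ g u) (σ g v) : ℝ) = inner ℝ u v) {w w' : V}
    (h : Proj2_fs σ w w') : Proj2_fs σ w' w := by
  have hf : Set.InjOn (fun g : G => g⁻¹) ((fun g : G => g⁻¹) ⁻¹' {g : G | (inner ℝ (σ g w) w' : ℝ) ≠ 0}) :=
    fun x _ y _ hxy => inv_injective hxy
  refine (Set.Finite.preimage hf h).subset fun g hg => ?_
  show (inner ℝ (σ g⁻¹ w) w' : ℝ) ≠ 0
  rw [real_inner_comm, ← Dich.inner_shift σ hσ]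
  exact hg

variable {B : Type} [Group B] [Fintype B] {b : B →* G} {a}

theorem Proj2_abs (hσ : ∀ g u v, (inner ℝ (σ g u) (σ g v) : ℝ) = inner ℝ u v) (v : V)
    (hfin : Proj2_fs σ v v) (hv : (inner ℝ v v : ℝ) = 1)
    (ha : ∀ x : A, (inner ℝ (σ (a x) v) v : ℝ) = 1) {t : ℝ}
    (ht : avg (fun z : B => (inner ℝ (σ (b z) v) v : ℝ)) = t) (ht0 : 0 < t) :
    ∃ φ : G → ℝ, Good φ ∧ (1 + Real.sqrt t) / 2 ≤ avg (fun x : A => φ (a x)) ∧
      (1 + Real.sqrt t) / 2 ≤ avg (fun z : B => φ (b z)) := by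
  obtain ⟨s, hs⟩ : ∃ s : ℝ, s = Real.sqrt t := ⟨_, rfl⟩
  have hs0 : 0 < s := by
    rw [hs]
    exact Real.sqrt_pos.2 ht0
  have hst : t = s ^ 2 := by
    rw [hs, Real.sq_sqrt ht0.le]
  rw [← hs]
  obtain ⟨E, hE⟩ : ∃ E : V, E = Proj2_av σ b v := ⟨_, rfl⟩
  have hEv : (inner ℝ E v : ℝ) = t := by
    rw [hE, Proj2_inner_av, ht]
  have hEE : (inner ℝ E E : ℝ) = t := by
    rw [← hEv, hE, Proj2_inner_av_av σ b hσ]
  obtain ⟨w, hw⟩ : ∃ w : V, w = s • v + E := ⟨_, rfl⟩
  have hwv : (inner ℝ w v : ℝ) = s + t := by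
    rw [hw, inner_add_left, real_inner_smul_left, hv, hEv, mul_one]
  have hEw : (inner ℝ E w : ℝ) = s * t + t := by
    rw [hw, inner_add_right, real_inner_smul_right, hEv, hEE]
  have hww : (inner ℝ w w : ℝ) = 2 * t * (1 + s) := by
    conv_lhs => rw [hw]
    rw [inner_add_left, inner_add_right, inner_add_right, real_inner_smul_left,
      real_inner_smul_left, real_inner_smul_right, real_inner_smul_right, real_inner_comm E v, hv,
      hEv, hEE, hst]
    ring
  have hNpos : 0 < 2 * t * (1 + s) := by positivity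
  have hfsvw : Proj2_fs σ v w := by
    apply Proj2_fs_symm σ hσ
    rw [hw, hE]
    exact Proj2_fs_add σ (Proj2_fs_smul σ _ hfin) (Proj2_fs_av σ b hfin)
  have hfsww : Proj2_fs σ w w := by
    conv =>
      arg 2
      rw [hw, hE]
    exact Proj2_fs_add σ (Proj2_fs_smul σ _ hfsvw) (Proj2_fs_av σ b hfsvw)
  refine ⟨fun g => (2 * t * (1 + s))⁻¹ * (inner ℝ (σ g w) w : ℝ), ⟨?_, ?_, ?_⟩, ?_, ?_⟩
  · exact PSDk.smul (IV.pd_coeff σ hσ w) (inv_nonneg.2 hNpos.le)
  · refine hfsww.subset fun g hg => ?_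
    intro hc
    apply hg
    show (2 * t * (1 + s))⁻¹ * (inner ℝ (σ g w) w : ℝ) = 0
    rw [hc, mul_zero]
  · show (2 * t * (1 + s))⁻¹ * (inner ℝ (σ 1 w) w : ℝ) = 1
    rw [map_one, Module.End.one_apply, hww, inv_mul_cancel₀ hNpos.ne']
  · -- the subgroup `A`
    have h1 : avg (fun x : A => (2 * t * (1 + s))⁻¹ * (inner ℝ (σ (a x) w) w : ℝ)) =
        (2 * t * (1 + s))⁻¹ * (inner ℝ (Proj2_av σ a w) w : ℝ) := by
      rw [Proj2_inner_av]
      unfold avg
      rw [← Finset.mul_sum, mul_div_assoc]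
    rw [h1]
    have hnull : ∀ x : A, ‖σ (a x) v - v‖ = 0 := by
      intro x
      have h2 : ‖σ (a x) v - v‖ ^ 2 = 0 := by
        rw [norm_sub_sq_real, Dich.norm_σ σ hσ, ha x, ← real_inner_self_eq_norm_sq, hv]
        ring
      exact pow_eq_zero_iff (two_ne_zero) |>.1 h2
    have h3 : (inner ℝ (Proj2_av σ a w) v : ℝ) = s + t := by
      rw [← hwv]
      apply Proj2_inner_av_of_inv σ a hσ
      intro x
      have h4 : (inner ℝ w (σ (a x) v - v) : ℝ) = 0 := by
        have h5 := abs_real_inner_le_norm w (σ (a x) v - v)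
        rw [hnull, mul_zero] at h5
        exact abs_nonpos_iff.1 h5
      rw [inner_sub_right] at h4
      linarith
    have h6 : (s + t) ^ 2 ≤ (inner ℝ (Proj2_av σ a w) w : ℝ) := by
      rw [← Proj2_inner_av_av σ a hσ, ← h3, real_inner_self_eq_norm_sq]
      have h7 := abs_real_inner_le_norm (Proj2_av σ a w) v
      have h8 : ‖v‖ = 1 := by
        have h9 : ‖v‖ ^ 2 = 1 := by rw [← real_inner_self_eq_norm_sq, hv]
        have h10 := norm_nonneg v
        nlinarith
      rw [h8, mul_one] at h7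
      rw [← sq_abs (inner ℝ (Proj2_av σ a w) v : ℝ)]
      exact pow_le_pow_left₀ (abs_nonneg _) h7 2
    have h11 : (1 + s) / 2 = (2 * t * (1 + s))⁻¹ * (s + t) ^ 2 := by
      rw [hst]
      field_simp
    rw [h11]
    exact mul_le_mul_of_nonneg_left h6 (inv_nonneg.2 hNpos.le)
  · have h1 : avg (fun z : B => (2 * t * (1 + s))⁻¹ * (inner ℝ (σ (b z) w) w : ℝ)) =
        (2 * t * (1 + s))⁻¹ * (inner ℝ (Proj2_av σ b w) w : ℝ) := by
      rw [Proj2_inner_av]
      unfold avg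
      rw [← Finset.mul_sum, mul_div_assoc]
    rw [h1]
    have h2 : Proj2_av σ b w = (1 + s) • E := by
      rw [hw, Proj2_av_add, Proj2_av_smul, ← hE,
        Proj2_av_of_inv σ b E (fun z => by rw [hE, Proj2_av_inv]), add_smul, one_smul, add_comm]
    rw [h2, real_inner_smul_left, hEw]
    apply le_of_eq
    field_simp
    ring

end abs

variable {A B G : Type} [Group A] [Fintype A] [Group B] [Fintype B] [Group G]
  {a : A →* G} {b : B →* G}

theorem two_proj {ψ : G → ℝ} (h : Good ψ) (ha : ∀ x, ψ (a x) = 1) {t : ℝ}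
    (ht : avg (fun z : B => ψ (b z)) = t) (ht0 : 0 < t) :
    ∃ φ : G → ℝ, Good φ ∧ (1 + Real.sqrt t) / 2 ≤ avg (fun x : A => φ (a x)) ∧
      (1 + Real.sqrt t) / 2 ≤ avg (fun z : B => φ (b z)) := by
  have hκ : PSDk (fun x y : G => ψ (x⁻¹ * y)) := h.pd
  let core : PreInnerProductSpace.Core ℝ (G →₀ ℝ) := Dich.coreOf hκ
  let ng : SeminormedAddCommGroup (G →₀ ℝ) :=
    InnerProductSpace.Core.toSeminormedAddCommGroup (𝕜 := ℝ)
  let ip : InnerProductSpace ℝ (G →₀ ℝ) := InnerProductSpace.ofCore core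
  have act_mul : ∀ g h x : G, g * h * x = g * (h * x) := fun g h x => mul_assoc g h x
  set σ := Dich.rep (fun g x : G => g * x) one_mul act_mul with hσdef
  have hin : ∀ u v : G →₀ ℝ, (inner ℝ u v : ℝ) = Dich.Bf (fun x y : G => ψ (x⁻¹ * y)) u v :=
    fun u v => rfl
  have hinv : ∀ g x y : G, ψ ((g * x)⁻¹ * (g * y)) = ψ (x⁻¹ * y) := fun g x y => by
    congr 1
    group
  have hσ : ∀ g u v, (inner ℝ (σ g u) (σ g v) : ℝ) = inner ℝ u v := fun g u v =>
    Dich.Bf_rep (κ := fun x y : G => ψ (x⁻¹ * y)) (fun g x : G => g * x) one_mul act_mul hinv g u v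
  have hcoef : ∀ g : G, (inner ℝ (σ g (Finsupp.single 1 1)) (Finsupp.single (1 : G) (1 : ℝ)) : ℝ) =
      ψ g := by
    intro g
    rw [hin, hσdef, Dich.rep_single, Dich.Bf_single, one_mul, one_mul, mul_one, mul_one]
    have := hκ.1 g 1
    simp only [mul_one, inv_one, one_mul] at this
    exact this
  refine Proj2_abs (V := G →₀ ℝ) (a := a) (b := b) σ hσ (Finsupp.single 1 1) ?_ ?_ ?_ ?_ ht0
  · show {g : G | (inner ℝ (σ g (Finsupp.single 1 1)) (Finsupp.single (1 : G) (1 : ℝ)) : ℝ) ≠ 0}.Finite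
    simp_rw [hcoef]
    exact h.fin
  · have h1 := hcoef 1
    rw [map_one, Module.End.one_apply, h.one] at h1
    exact h1
  · intro x
    rw [hcoef, ha]
  · simp_rw [hcoef]
    exact ht

end Pool.SpecDense
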