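import Pool.Agent.Lib.MP_863a8d_al.SP.Schur

/-!
# The tensor power of a positive definite function

`ψ g = ∏ x : A, φ' (S.sec g x)`. Let `τ g y = sec g ((p g)⁻¹ * y)`. Then
`sec (g⁻¹ * h) x = (τ g (p h * x))⁻¹ * τ h (p h * x)`.
-/

set_option autoImplicit false

namespace Pool.SpecDense

variable {A B G A' G' : Type} [Group A] [Group B] [Group G] [Group A'] [Group G']
    [Fintype A] [Fintype B] [Fintype A']

namespace Tens

variable {a : A →* G} {b : B →* G} {a' : A' →* G'} {b' : B →* G'} {ω : B →* A'}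
    {g₀ : A} (S : Step a b a' b' ω g₀)

omit [Fintype A] [Fintype B] [Fintype A'] in
lemma sec_one (x : A) : S.sec 1 x = 1 := by
  have h := S.sec_mul 1 1 x
  rw [mul_one, map_one, one_mul] at h
  exact (mul_eq_left.1 h.symm)

omit [Fintype A] [Fintype B] [Fintype A'] in
lemma sec_inv (g : G) (x : A) : S.sec g⁻¹ x = (S.sec g ((S.p g)⁻¹ * x))⁻¹ := by
  have h := S.sec_mul g g⁻¹ x
  rw [mul_inv_cancel, sec_one, map_inv] at h
  exact (inv_eq_of_mul_eq_one_right h.symm).symm

/-- the section at the letter that is mapped to `y` -/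
def τ (g : G) (y : A) : G' := S.sec g ((S.p g)⁻¹ * y)

omit [Fintype A] [Fintype B] [Fintype A'] in
lemma sec_inv_mul (g h : G) (x : A) :
    S.sec (g⁻¹ * h) x = (τ S g (S.p h * x))⁻¹ * τ S h (S.p h * x) := by
  rw [S.sec_mul, sec_inv]
  unfold τ
  rw [inv_mul_cancel_left]

omit [Fintype A] [Fintype B] [Fintype A'] in
lemma psd_prod {X ι : Type} (s : Finset ι) (κ : ι → X → X → ℝ) (h : ∀ i, PSDk (κ i)) :
    PSDk (fun x y => ∏ i ∈ s, κ i x y) := by
  classical
  induction s using Finset.induction_on with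
  | empty =>
      simp only [Finset.prod_empty]
      exact PSDk.one
  | insert i s hi ih =>
      simp only [Finset.prod_insert hi]
      exact (h i).mul ih

omit [Fintype B] [Fintype A'] in
lemma pd_prod {φ' : G' → ℝ} (h : PD φ') : PD (fun g => ∏ x : A, φ' (S.sec g x)) := by
  have h1 : ∀ y : A, PSDk (fun g h : G => φ' ((τ S g y)⁻¹ * τ S h y)) := fun y =>
    PSDk.comp h (fun g => τ S g y)
  have h2 := psd_prod Finset.univ _ h1
  have h3 : (fun g h : G => ∏ x : A, φ' (S.sec (g⁻¹ * h) x)) =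
      fun g h : G => ∏ y : A, φ' ((τ S g y)⁻¹ * τ S h y) := by
    funext g h
    simp_rw [sec_inv_mul]
    exact Fintype.prod_equiv (Equiv.mulLeft (S.p h)) _ _ (fun x => rfl)
  show PSDk (fun g h : G => ∏ x : A, φ' (S.sec (g⁻¹ * h) x))
  rw [h3]
  exact h2

omit [Fintype A] [Fintype B] [Fintype A'] in
lemma ext {g h : G} (h1 : S.p g = S.p h) (h2 : S.sec g = S.sec h) : g = h := by
  have h3 : g⁻¹ * h = 1 := by
    refine S.inj _ ?_ fun x => ?_
    · rw [map_mul, map_inv, h1, inv_mul_cancel]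
    · rw [sec_inv_mul]
      unfold τ
      rw [h1, h2, inv_mul_cancel]
  exact (inv_mul_eq_one.1 h3)

omit [Fintype B] [Fintype A'] in
lemma fin_prod {φ' : G' → ℝ} (h : {g | φ' g ≠ 0}.Finite) :
    {g | ∏ x : A, φ' (S.sec g x) ≠ 0}.Finite := by
  have h1 : (Set.univ.pi fun _ : A => {g | φ' g ≠ 0}).Finite := Set.Finite.pi fun _ => h
  have h2 : ((Set.univ : Set A) ×ˢ (Set.univ.pi fun _ : A => {g | φ' g ≠ 0})).Finite :=
    Set.finite_univ.prod h1
  refine Set.Finite.of_finite_image (f := fun g => (S.p g, S.sec g)) (h2.subset ?_) ?_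
  · rintro _ ⟨g, hg, rfl⟩
    refine ⟨Set.mem_univ _, fun x _ => ?_⟩
    exact (Finset.prod_ne_zero_iff.1 hg) x (Finset.mem_univ x)
  · intro g _ h _ hgh
    have := Prod.mk.injEq _ _ _ _ ▸ hgh
    exact ext S this.1 this.2

omit [Fintype B] [Fintype A'] in
lemma val_b {φ' : G' → ℝ} (h : φ' 1 = 1) (hg : g₀ ≠ 1) (z : B) :
    ∏ x : A, φ' (S.sec (b z) x) = φ' (b' z) * φ' (a' (ω z)) := by
  classical
  rw [← Finset.mul_prod_erase Finset.univ _ (Finset.mem_univ (1 : A)), S.sec_b_one,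
    ← Finset.mul_prod_erase _ _ (Finset.mem_erase.2 ⟨hg, Finset.mem_univ g₀⟩), S.sec_b_g]
  rw [Finset.prod_eq_one, mul_one]
  intro x hx
  rw [Finset.mem_erase, Finset.mem_erase] at hx
  rw [S.sec_b_ne z x hx.2.1 hx.1, h]

end Tens

open Tens

theorem Step.tens {a : A →* G} {b : B →* G} {a' : A' →* G'} {b' : B →* G'} {ω : B →* A'}
    {g₀ : A} (S : Step a b a' b' ω g₀) (hg : g₀ ≠ 1) (hω : Function.Surjective ω) {φ' : G' → ℝ}
    (h : Good φ') : ∃ ψ : G → ℝ, Good ψ ∧ (∀ x, ψ (a x) = 1) ∧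
      avg (fun z : B => φ' (b' z)) * avg (fun x : A' => φ' (a' x)) ≤
        avg (fun z : B => ψ (b z)) := by
  refine ⟨fun g => ∏ x : A, φ' (S.sec g x), ⟨pd_prod S h.pd, fin_prod S h.fin, ?_⟩, ?_, ?_⟩
  · simp only [sec_one, h.one, Finset.prod_const_one]
  · intro x
    simp only [S.sec_a, h.one, Finset.prod_const_one]
  · have hpd1 : PD (fun z : B => φ' (b' z)) := by
      have h1 := PSDk.comp h.pd (fun z : B => b' z)
      have h2 : (fun z z' : B => φ' (b' (z⁻¹ * z'))) = fun z z' : B => φ' ((b' z)⁻¹ * b' z') := by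
        funext z z'
        rw [map_mul, map_inv]
      show PSDk (fun z z' : B => φ' (b' (z⁻¹ * z')))
      rw [h2]
      exact h1
    have hpd2 : PD (fun z : B => φ' (a' (ω z))) := by
      have h1 := PSDk.comp h.pd (fun z : B => a' (ω z))
      have h2 : (fun z z' : B => φ' (a' (ω (z⁻¹ * z')))) =
          fun z z' : B => φ' ((a' (ω z))⁻¹ * a' (ω z')) := by
        funext z z'
        rw [map_mul, map_mul, map_inv, map_inv]
      show PSDk (fun z z' : B => φ' (a' (ω (z⁻¹ * z'))))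
      rw [h2]
      exact h1
    have h3 := avg_mul_le hpd1 hpd2
    rw [avg_comp_surj hω (fun x => φ' (a' x))] at h3
    refine h3.trans (le_of_eq ?_)
    congr 1
    funext z
    exact (val_b S h.one hg z).symm

end Pool.SpecDense
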