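import Pool.Agent.Lib.MP_863a8d_al.SP.Sec
import Pool.Agent.Lib.MP_863a8d_al.SP.Tens
import Pool.Agent.Lib.MP_863a8d_al.SP.Proj2

/-!
# Iteration

Finitely supported positive definite functions on a spinal group whose averages over the two finite
subgroups are close to one.
-/

set_option autoImplicit false

namespace Pool.SpecDense.Spinal

namespace Iter

open Classical in
/-- the delta function -/
noncomputable def dl {G : Type} [Group G] (g : G) : ℝ := if g = 1 then 1 else 0

lemma good_dl {G : Type} [Group G] : Good (dl (G := G)) := by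
  classical
  refine ⟨⟨fun x y => ?_, fun F c => ?_⟩, ?_, ?_⟩
  · show dl (x⁻¹ * y) = dl (y⁻¹ * x)
    unfold dl
    simp only [inv_mul_eq_one, eq_comm]
  · show 0 ≤ ∑ x ∈ F, ∑ y ∈ F, c x * c y * dl (x⁻¹ * y)
    refine Finset.sum_nonneg fun x hx => ?_
    have h : ∑ y ∈ F, c x * c y * dl (x⁻¹ * y) = c x * c x := by
      rw [Finset.sum_eq_single x]
      · unfold dl
        rw [inv_mul_cancel, if_pos rfl, mul_one]
      · intro y _ hyx
        unfold dl
        rw [if_neg (fun h => hyx (inv_mul_eq_one.1 h).symm), mul_zero]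
      · exact fun h => absurd hx h
    rw [h]
    exact mul_self_nonneg _
  · refine (Set.finite_singleton (1 : G)).subset fun g hg => ?_
    by_contra hne
    exact hg (if_neg hne)
  · exact if_pos rfl

lemma avg_dl {G A : Type} [Group G] [Group A] [Fintype A] (a : A →* G) :
    0 < avg (fun x : A => dl (a x)) := by
  unfold avg
  have hc : (0 : ℝ) < (Fintype.card A : ℝ) := by exact_mod_cast Fintype.card_pos
  refine div_pos ?_ hc
  refine Finset.sum_pos' (fun x _ => ?_) ⟨1, Finset.mem_univ _, ?_⟩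
  · unfold dl
    split_ifs <;> norm_num
  · unfold dl
    rw [map_one, if_pos rfl]
    norm_num

end Iter

open Iter

variable {B : Type} [Group B] [Fintype B]

theorem iter (k : ℕ) (D : Spinal B) : ∃ φ : D.Gp → ℝ, Good φ ∧
    0 < avg (fun x : D.A 0 => φ (D.a x)) ∧ 0 < avg (fun z : B => φ (D.b z)) ∧
    1 - (1 / 2 : ℝ) ^ k ≤ avg (fun x : D.A 0 => φ (D.a x)) ∧
    1 - (1 / 2 : ℝ) ^ k ≤ avg (fun z : B => φ (D.b z)) := by
  induction k generalizing D with
  | zero =>
      have h1 := avg_dl D.a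
      have h2 := avg_dl D.b
      refine ⟨dl, good_dl, h1, h2, ?_, ?_⟩
      · rw [pow_zero, sub_self]
        exact h1.le
      · rw [pow_zero, sub_self]
        exact h2.le
  | succ k ih =>
      obtain ⟨φ', hφ', h1, h2, h3, h4⟩ := ih D.shift
      obtain ⟨S⟩ := exists_step D
      obtain ⟨ψ, hψ, ha, hb⟩ := S.tens (D.ne 0) (D.surj 0) hφ'
      set c : ℝ := 1 - (1 / 2 : ℝ) ^ k with hc
      have hc0 : 0 ≤ c := by
        rw [hc, sub_nonneg]
        exact pow_le_one₀ (by norm_num) (by norm_num)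
      set s₁ : ℝ := avg (fun x : D.shift.A 0 => φ' (D.shift.a x)) with hs₁
      set s₂ : ℝ := avg (fun z : B => φ' (D.shift.b z)) with hs₂
      have ht : s₂ * s₁ ≤ avg (fun z : B => ψ (D.b z)) := hb
      have ht0 : 0 < avg (fun z : B => ψ (D.b z)) := lt_of_lt_of_le (mul_pos h2 h1) ht
      obtain ⟨φ, hφ, h5, h6⟩ := two_proj (a := D.a) (b := D.b) hψ ha rfl ht0
      have h7 : c ≤ Real.sqrt (avg (fun z : B => ψ (D.b z))) := by
        refine Real.le_sqrt_of_sq_le (le_trans ?_ ht)
        rw [sq]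
        exact mul_le_mul h4 h3 hc0 h2.le
      have h8 : 1 - (1 / 2 : ℝ) ^ (k + 1) = (1 + c) / 2 := by
        rw [hc, pow_succ]
        ring
      have h9 : 0 < (1 + Real.sqrt (avg (fun z : B => ψ (D.b z)))) / 2 := by
        have := Real.sqrt_nonneg (avg (fun z : B => ψ (D.b z)))
        linarith
      refine ⟨φ, hφ, lt_of_lt_of_le h9 h5, lt_of_lt_of_le h9 h6, ?_, ?_⟩
      · rw [h8]
        linarith
      · rw [h8]
        linarith

end Pool.SpecDense.Spinal
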