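import Pool.Agent.Lib.MP_863a8d_al.SP.Defs

/-!
# Two projections, and the base of the recursion

`Lam.eig`: given `Y`, `f` from `Lam`, put `F y = avg_z f (b z • y)` and
`w y = (η - Q) * f y + Q * F y`.
`Step.base`: `Y = A` with the action `g • y = S.p g * y`, `w = 1_{1} - 1_{g₀}`.
-/

set_option autoImplicit false

namespace Pool.SpecDense

namespace Two

lemma avg_add {X : Type} [Fintype X] (f g : X → ℝ) :
    avg (fun x => f x + g x) = avg f + avg g := by
  unfold avg
  rw [Finset.sum_add_distrib, add_div]

lemma avg_mul {X : Type} [Fintype X] (c : ℝ) (f : X → ℝ) :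
    avg (fun x => c * f x) = c * avg f := by
  unfold avg
  rw [← Finset.mul_sum, mul_div_assoc]

lemma avg_const {X : Type} [Fintype X] [Nonempty X] (c : ℝ) : avg (fun _ : X => c) = c := by
  unfold avg
  rw [Finset.sum_const, Finset.card_univ, nsmul_eq_mul]
  have : (Fintype.card X : ℝ) ≠ 0 := by exact_mod_cast Fintype.card_ne_zero
  field_simp

lemma avg_right {X : Type} [Group X] [Fintype X] (f : X → ℝ) (r : X) :
    avg (fun x => f (x * r)) = avg f := by
  unfold avg
  rw [Fintype.sum_equiv (Equiv.mulRight r) (fun x => f (x * r)) f (fun x => rfl)]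

end Two

open Two

section

variable {A B G : Type} [Group A] [Fintype A] [Group B] [Fintype B] [Group G]
  {a : A →* G} {b : B →* G}

theorem Lam.eig {l P Q η : ℝ} (h : Lam a b l) (h0 : 0 < l) (h1 : l < 1) (hQ : 0 < Q)
    (hη : (η - P) * (η - Q) = P * Q * l) : Eig a b P Q η := by
  obtain ⟨Y, hY, hact, f, hf, hinv, hl⟩ := h
  set F : Y → ℝ := fun y => avg (fun z : B => f (b z • y)) with hF
  have hFA : ∀ y, avg (fun x : A => F (a x • y)) = l * f y := hl
  have hFB : ∀ (z : B) (y : Y), F (b z • y) = F y := by
    intro z y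
    show avg (fun z' : B => f (b z' • b z • y)) = avg (fun z' : B => f (b z' • y))
    rw [← avg_right (fun z' : B => f (b z' • y)) z]
    congr 1
    funext z'
    rw [map_mul, mul_smul]
  refine ⟨Y, hY, hact, fun y => (η - Q) * f y + Q * F y, ?_, ?_⟩
  · intro hw
    have hw' : ∀ y, F y = (Q - η) / Q * f y := by
      intro y
      have h2 := congrFun hw y
      simp only [Pi.zero_apply] at h2
      rw [div_mul_eq_mul_div, eq_div_iff hQ.ne']
      linarith
    obtain ⟨y, hy⟩ := Function.ne_iff.1 hf
    have hy' : f y ≠ 0 := hy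
    -- average over `A`
    have h3 : l * f y = (Q - η) / Q * f y := by
      rw [← hFA y]
      simp_rw [hw', hinv]
      exact avg_const _
    have h4 : l = (Q - η) / Q := mul_right_cancel₀ hy' h3
    -- average over `B`
    have h5 : F y = (Q - η) / Q * F y := by
      calc F y = avg (fun z : B => F (b z • y)) := by
            simp_rw [hFB]
            exact (avg_const _).symm
        _ = avg (fun z : B => (Q - η) / Q * f (b z • y)) := by simp_rw [hw']
        _ = (Q - η) / Q * F y := avg_mul _ _
    rw [← h4] at h5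
    have h6 : F y = l * f y := by rw [hw' y, ← h4]
    rw [h6] at h5
    have h7 : l * f y * (1 - l) = 0 := by linarith
    rcases mul_eq_zero.1 h7 with h8 | h8
    · rcases mul_eq_zero.1 h8 with h9 | h9
      · exact h0.ne' h9
      · exact hy' h9
    · linarith
  · intro y
    have hA : avg (fun x : A => (η - Q) * f (a x • y) + Q * F (a x • y)) =
        (η - Q) * f y + Q * (l * f y) := by
      rw [avg_add, avg_mul, avg_mul, hFA]
      simp_rw [hinv]
      rw [avg_const]
    have hB : avg (fun z : B => (η - Q) * f (b z • y) + Q * F (b z • y)) =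
        (η - Q) * F y + Q * F y := by
      rw [avg_add, avg_mul, avg_mul]
      simp_rw [hFB]
      rw [avg_const]
    show P * avg (fun x : A => (η - Q) * f (a x • y) + Q * F (a x • y)) +
      Q * avg (fun z : B => (η - Q) * f (b z • y) + Q * F (b z • y)) =
        η * ((η - Q) * f y + Q * F y)
    rw [hA, hB]
    linear_combination (-f y) * hη

end

theorem Step.base {A B G A' G' : Type} [Group A] [Group B] [Group G] [Group A'] [Group G']
    [Fintype A] [Fintype B] {a : A →* G} {b : B →* G} {a' : A' →* G'} {b' : B →* G'} {ω : B →* A'}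
    {g₀ : A} (S : Step a b a' b' ω g₀) (hg : g₀ ≠ 1) : Eig a b 1 1 1 := by
  classical
  refine ⟨A, inferInstance, MulAction.compHom A S.p,
    fun y => (if y = 1 then 1 else 0) - (if y = g₀ then 1 else 0), ?_, ?_⟩
  · intro h
    have h1 := congrFun h 1
    have h2 : ¬ (1 : A) = g₀ := fun h' => hg h'.symm
    simp [h2] at h1
  · intro y
    have hsum : ∑ x : A, ((if x * y = 1 then (1 : ℝ) else 0) - (if x * y = g₀ then 1 else 0)) = 0 := by
      rw [Fintype.sum_equiv (Equiv.mulRight y)
        (fun x => (if x * y = 1 then (1 : ℝ) else 0) - (if x * y = g₀ then 1 else 0))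
        (fun x => (if x = 1 then (1 : ℝ) else 0) - (if x = g₀ then 1 else 0)) (fun x => rfl),
        Finset.sum_sub_distrib, Finset.sum_ite_eq', Finset.sum_ite_eq']
      simp
    show 1 * avg (fun x : A => ((if S.p (a x) * y = 1 then (1 : ℝ) else 0) -
        (if S.p (a x) * y = g₀ then 1 else 0))) +
      1 * avg (fun z : B => ((if S.p (b z) * y = 1 then (1 : ℝ) else 0) -
        (if S.p (b z) * y = g₀ then 1 else 0))) =
      1 * ((if y = 1 then (1 : ℝ) else 0) - (if y = g₀ then 1 else 0))
    simp_rw [S.p_a, S.p_b, one_mul]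
    rw [avg_const]
    unfold avg
    rw [hsum, zero_div, zero_add]

end Pool.SpecDense
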