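import Pool.Agent.Lib.MP_863a8d_al.SP.Sec
import Pool.Agent.Lib.MP_863a8d_al.SP.Two
import Pool.Agent.Lib.MP_863a8d_al.SP.Ind
import Pool.Agent.Lib.MP_863a8d_al.SP.Dens

/-!
# The eigenvalues are dense
-/

set_option autoImplicit false

namespace Pool.SpecDense.Spinal

variable {B : Type} [Group B] [Fintype B]

omit [Fintype B] in
theorem card_ge (D : Spinal B) : 2 ≤ Fintype.card (D.A 0) :=
  Fintype.one_lt_card_iff.2 ⟨D.g 0, 1, D.ne 0⟩

theorem lam_step (D : Spinal B) {κ : ℝ} (h : Eig D.shift.a D.shift.b 1 1 κ) (j : ℕ)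
    (hj : j + 2 ≤ Fintype.card (D.A 0)) :
    Lam D.a D.b ((κ + j) / (Fintype.card (D.A 0) : ℝ)) := by
  obtain ⟨S⟩ := exists_step D
  obtain ⟨S'⟩ := exists_step D.shift
  exact S.ind (D.ne 0) (D.surj 0) S'.p S'.p_a S'.p_b (D.shift.g 0) (D.shift.ne 0) h j hj

theorem eig_dense (D : Spinal B) {κ : ℝ} (h0 : 0 ≤ κ) (h2 : κ ≤ 2) {ε : ℝ} (hε : 0 < ε) :
    ∃ κ' : ℝ, 0 < κ' ∧ κ' < 2 ∧ Eig D.a D.b 1 1 κ' ∧ |κ' - κ| < ε := by
  refine dens (fun n => Fintype.card ((D.sh n).A 0)) (fun n => card_ge _)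
    (fun n κ => Eig (D.sh n).a (D.sh n).b 1 1 κ) ?_ ?_ 0 h0 h2 hε
  · intro n
    obtain ⟨S⟩ := exists_step (D.sh n)
    exact S.base ((D.sh n).ne 0)
  · intro n κ h3 h4 h5 j hj s hs
    have hl : Lam (D.sh n).a (D.sh n).b ((κ + j) / (Fintype.card ((D.sh n).A 0) : ℝ)) :=
      lam_step (D.sh n) h5 j hj
    have hd : (0 : ℝ) < (Fintype.card ((D.sh n).A 0) : ℝ) := by
      have := card_ge (D.sh n)
      exact_mod_cast (by omega : 0 < Fintype.card ((D.sh n).A 0))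
    have hjd : (j : ℝ) + 2 ≤ (Fintype.card ((D.sh n).A 0) : ℝ) := by exact_mod_cast hj
    have hj0 : (0 : ℝ) ≤ j := Nat.cast_nonneg j
    have h6 : 0 < (κ + j) / (Fintype.card ((D.sh n).A 0) : ℝ) := div_pos (by linarith) hd
    have h7 : (κ + j) / (Fintype.card ((D.sh n).A 0) : ℝ) < 1 := (div_lt_one hd).2 (by linarith)
    refine hl.eig h6 h7 one_pos ?_
    rw [add_sub_cancel_left]
    have h8 := Real.mul_self_sqrt h6.le
    rcases hs with rfl | rfl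
    · rw [one_mul, one_mul, one_mul]
      exact h8
    · rw [neg_one_mul, neg_mul_neg, one_mul, one_mul]
      exact h8

theorem lam_dense (D : Spinal B) {l : ℝ} (h0 : 0 ≤ l) (h1 : l ≤ 1) {ε : ℝ} (hε : 0 < ε) :
    ∃ l' : ℝ, 0 < l' ∧ l' < 1 ∧ Lam D.a D.b l' ∧ |l' - l| < ε := by
  have hd2 := card_ge D
  have hd : (0 : ℝ) < (Fintype.card (D.A 0) : ℝ) := by
    exact_mod_cast (by omega : 0 < Fintype.card (D.A 0))
  have hd1 : (1 : ℝ) ≤ (Fintype.card (D.A 0) : ℝ) := by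
    exact_mod_cast (by omega : 1 ≤ Fintype.card (D.A 0))
  obtain ⟨j, hj, hj0, hj2⟩ := exists_j hd2 h0 h1
  obtain ⟨κ', h3, h4, h5, h6⟩ := eig_dense D.shift hj0 hj2 hε
  have hjd : (j : ℝ) + 2 ≤ (Fintype.card (D.A 0) : ℝ) := by exact_mod_cast hj
  have hjn : (0 : ℝ) ≤ j := Nat.cast_nonneg j
  refine ⟨(κ' + j) / (Fintype.card (D.A 0) : ℝ), div_pos (by linarith) hd,
    (div_lt_one hd).2 (by linarith), lam_step D h5 j hj, ?_⟩
  have e : (κ' + j) / (Fintype.card (D.A 0) : ℝ) - l =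
      (κ' - ((Fintype.card (D.A 0) : ℝ) * l - j)) / (Fintype.card (D.A 0) : ℝ) := by
    field_simp
    ring
  rw [e, abs_div, abs_of_pos hd]
  exact (div_le_self (abs_nonneg _) hd1).trans_lt h6

end Pool.SpecDense.Spinal
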