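import Mathlib

/-!
# The arccosine of an affine map
-/

set_option autoImplicit false

namespace Pool.SpecDense

/-- the case `0 ≤ t`, `y ≤ x` -/
private lemma arccos_affine_aux {s t x y : ℝ} (hs : 0 ≤ s) (ht : 0 ≤ t) (hst : s + t ≤ 1)
    (hx : x ∈ Set.Icc (-1 : ℝ) 1) (hy : y ∈ Set.Icc (-1 : ℝ) 1) (hxy : y ≤ x) :
    Real.arccos (s * y + t) - Real.arccos (s * x + t) ≤ Real.arccos y - Real.arccos x := by
  set θ₁ := Real.arccos x with hθ₁
  set δ := Real.arccos y - θ₁ with hδ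
  set ψ := Real.arccos (s * x + t) with hψ
  have hδ0 : 0 ≤ δ := sub_nonneg.2 (Real.arccos_le_arccos hxy)
  have hδπ : δ ≤ Real.pi := by
    have h1 := Real.arccos_le_pi y
    have h2 := Real.arccos_nonneg x
    linarith
  have hx1 := hx.1
  have hx2 := hx.2
  have hsx : s * x ≤ s := by nlinarith
  have hsx' : -s ≤ s * x := by nlinarith
  have hy1 := hy.1
  have hy2 := hy.2
  have hsy : s * y ≤ s := by nlinarith
  have hsy' : -s ≤ s * y := by nlinarith
  have hcos1 : Real.cos θ₁ = x := Real.cos_arccos hx1 hx2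
  have hcosψ : Real.cos ψ = s * x + t := Real.cos_arccos (by linarith) (by linarith)
  have hcos2 : Real.cos (θ₁ + δ) = y := by
    rw [hδ, add_sub_cancel]
    exact Real.cos_arccos hy1 hy2
  have hψ0 : 0 ≤ ψ := Real.arccos_nonneg _
  have hψπ : ψ ≤ Real.pi := Real.arccos_le_pi _
  suffices h : Real.arccos (s * y + t) ≤ ψ + δ by linarith
  by_cases hbig : Real.pi ≤ ψ + δ
  · exact (Real.arccos_le_pi _).trans hbig
  · push Not at hbig
    have hsinθ : 0 ≤ Real.sin θ₁ :=
      Real.sin_nonneg_of_nonneg_of_le_pi (Real.arccos_nonneg _) (Real.arccos_le_pi _)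
    have hsinψ : 0 ≤ Real.sin ψ := Real.sin_nonneg_of_nonneg_of_le_pi hψ0 hψπ
    have hsinδ : 0 ≤ Real.sin δ := Real.sin_nonneg_of_nonneg_of_le_pi hδ0 hδπ
    have hcosδ : Real.cos δ ≤ 1 := Real.cos_le_one δ
    have hsin : s * Real.sin θ₁ ≤ Real.sin ψ := by
      have h1 := Real.sin_sq_add_cos_sq θ₁
      have h2 := Real.sin_sq_add_cos_sq ψ
      rw [hcos1] at h1
      rw [hcosψ] at h2
      refine (sq_le_sq₀ (mul_nonneg hs hsinθ) hsinψ).1 ?_
      have h3 : (s * Real.sin θ₁) ^ 2 = s ^ 2 - s ^ 2 * x ^ 2 := by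
        rw [mul_pow]
        linear_combination s ^ 2 * h1
      have h4 : Real.sin ψ ^ 2 = 1 - (s * x + t) ^ 2 := by linear_combination h2
      rw [h3, h4]
      have h5 : s * t * x ≤ s * t := by nlinarith [mul_nonneg hs ht]
      nlinarith
    have h1 : Real.cos (ψ + δ) ≤ s * y + t := by
      rw [← hcos2, Real.cos_add, Real.cos_add, hcosψ, hcos1]
      nlinarith [mul_nonneg ht (sub_nonneg.2 hcosδ),
        mul_nonneg (sub_nonneg.2 hsin) hsinδ]
    calc Real.arccos (s * y + t) ≤ Real.arccos (Real.cos (ψ + δ)) := Real.arccos_le_arccos h1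
      _ = ψ + δ := Real.arccos_cos (by linarith) hbig.le

private lemma arccos_affine_aux2 {s t x y : ℝ} (hs : 0 ≤ s) (ht : 0 ≤ t) (hst : s + t ≤ 1)
    (hx : x ∈ Set.Icc (-1 : ℝ) 1) (hy : y ∈ Set.Icc (-1 : ℝ) 1) :
    |Real.arccos (s * x + t) - Real.arccos (s * y + t)| ≤ |Real.arccos x - Real.arccos y| := by
  rcases le_total y x with h | h
  · have h1 := arccos_affine_aux hs ht hst hx hy h
    have h2 : Real.arccos (s * x + t) ≤ Real.arccos (s * y + t) :=
      Real.arccos_le_arccos (by nlinarith)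
    have h3 : Real.arccos x ≤ Real.arccos y := Real.arccos_le_arccos h
    rw [abs_of_nonpos (sub_nonpos.2 h2), abs_of_nonpos (sub_nonpos.2 h3)]
    linarith
  · have h1 := arccos_affine_aux hs ht hst hy hx h
    have h2 : Real.arccos (s * y + t) ≤ Real.arccos (s * x + t) :=
      Real.arccos_le_arccos (by nlinarith)
    have h3 : Real.arccos y ≤ Real.arccos x := Real.arccos_le_arccos h
    rw [abs_of_nonneg (sub_nonneg.2 h2), abs_of_nonneg (sub_nonneg.2 h3)]
    linarith

theorem arccos_affine {s t x y : ℝ} (hs : 0 ≤ s) (hst : s + |t| ≤ 1) (hx : x ∈ Set.Icc (-1 : ℝ) 1)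
    (hy : y ∈ Set.Icc (-1 : ℝ) 1) :
    |Real.arccos (s * x + t) - Real.arccos (s * y + t)| ≤ |Real.arccos x - Real.arccos y| := by
  rcases le_total 0 t with h | h
  · rw [abs_of_nonneg h] at hst
    exact arccos_affine_aux2 hs h hst hx hy
  · rw [abs_of_nonpos h] at hst
    have h1 := arccos_affine_aux2 hs (neg_nonneg.2 h) hst (x := -x) (y := -y)
      ⟨by linarith [hx.2], by linarith [hx.1]⟩ ⟨by linarith [hy.2], by linarith [hy.1]⟩
    have e1 : s * -x + -t = -(s * x + t) := by ring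
    have e2 : s * -y + -t = -(s * y + t) := by ring
    rw [e1, e2, Real.arccos_neg, Real.arccos_neg, Real.arccos_neg, Real.arccos_neg,
      sub_sub_sub_cancel_left, sub_sub_sub_cancel_left, abs_sub_comm,
      abs_sub_comm (Real.arccos y)] at h1
    exact h1

theorem arccos_sqrt {l : ℝ} (h0 : 0 ≤ l) (h1 : l ≤ 1) :
    Real.arccos (Real.sqrt l) = Real.arccos (2 * l - 1) / 2 := by
  have hs0 := Real.sqrt_nonneg l
  have hs1 : Real.sqrt l ≤ 1 := Real.sqrt_le_one.2 h1
  have hcos : Real.cos (Real.arccos (Real.sqrt l)) = Real.sqrt l :=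
    Real.cos_arccos (by linarith) hs1
  have h2 : Real.cos (2 * Real.arccos (Real.sqrt l)) = 2 * l - 1 := by
    rw [Real.cos_two_mul, hcos, Real.sq_sqrt h0]
  have h3 : Real.arccos (Real.sqrt l) ≤ Real.pi / 2 := Real.arccos_le_pi_div_two.2 hs0
  have h4 : Real.arccos (2 * l - 1) = 2 * Real.arccos (Real.sqrt l) := by
    rw [← h2]
    exact Real.arccos_cos (by linarith [Real.arccos_nonneg (Real.sqrt l)]) (by linarith)
  rw [h4]
  ring

end Pool.SpecDense
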