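import Pool.Agent.Lib.MP_863a8d_al.SP.Defs
import Pool.Agent.Lib.MP_863a8d_al.Op

/-!
# The gap

`X = 1 - W.op = P (1 - eA) + Q (1 - eB)` for the two projections `eA`, `eB`, so
`(X - P) (X - Q) = P Q (1 - eA - eB) ^ 2 ≥ 0` and `P + Q - X = P eA + Q eB ≥ 0`.
-/

set_option autoImplicit false

namespace Pool.SpecDense

section proj

variable {A G : Type} [Group A] [Fintype A] [Group G]

/-- the projection on the invariant vectors of a finite subgroup -/
noncomputable def Up_e (a : A →* G) : L2 G →L[ℂ] L2 G :=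
  ((Fintype.card A : ℂ))⁻¹ • ∑ x : A, R (a x)

theorem Up_e_apply (a : A →* G) (f : L2 G) :
    Up_e a f = ((Fintype.card A : ℂ))⁻¹ • ∑ x : A, R (a x) f := by
  unfold Up_e
  rw [smul_apply, sum_apply]

theorem Up_e_coe (a : A →* G) (f : L2 G) (x : G) :
    (Up_e a f : G → ℂ) x = ((Fintype.card A : ℂ))⁻¹ * ∑ y : A, (f : G → ℂ) (x * a y) := by
  rw [Up_e_apply, lp.coeFn_smul, Pi.smul_apply, lp.coeFn_sum, Finset.sum_apply, smul_eq_mul]
  rfl

theorem Up_e_R (a : A →* G) (f : L2 G) (x : A) : R (a x) (Up_e a f) = Up_e a f := by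
  rw [Up_e_apply, map_smul, map_sum]
  congr 1
  refine Fintype.sum_equiv (Equiv.mulLeft x) _ _ fun y => ?_
  rw [← R_mul, ← map_mul]
  rfl

theorem Up_e_idem (a : A →* G) (f : L2 G) : Up_e a (Up_e a f) = Up_e a f := by
  conv_lhs => rw [Up_e_apply]
  have h : ∀ x : A, R (a x) (Up_e a f) = Up_e a f := Up_e_R a f
  simp_rw [h]
  rw [Finset.sum_const, Finset.card_univ, ← Nat.cast_smul_eq_nsmul ℂ, smul_smul,
    inv_mul_cancel₀ (by exact_mod_cast Fintype.card_ne_zero), one_smul]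

theorem Up_e_mul (a : A →* G) : Up_e a * Up_e a = Up_e a := by
  refine ContinuousLinearMap.ext fun f => ?_
  exact Up_e_idem a f

theorem Up_e_inner (a : A →* G) (f f' : L2 G) :
    inner ℂ (Up_e a f) f' = inner ℂ f (Up_e a f') := by
  rw [Up_e_apply, Up_e_apply, inner_smul_left, inner_smul_right, sum_inner, inner_sum]
  congr 1
  · simp
  · refine Fintype.sum_equiv (Equiv.inv A) _ _ fun x => ?_
    rw [inner_R, Equiv.inv_apply, map_inv]

theorem Up_e_norm (a : A →* G) (f : L2 G) : inner ℂ (Up_e a f) f = (‖Up_e a f‖ : ℂ) ^ 2 := by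
  have h : inner ℂ (Up_e a f) (Up_e a f) = (‖Up_e a f‖ : ℂ) ^ 2 :=
    inner_self_eq_norm_sq_to_K (𝕜 := ℂ) (Up_e a f)
  rw [← h, ← Up_e_inner, Up_e_idem]

end proj

variable {A B G : Type} [Group A] [Fintype A] [Group B] [Fintype B] [Group G]
  {a : A →* G} {b : B →* G}

theorem TwoW.Up_op {W : Walk G} {P Q : ℝ} (hW : TwoW W a b P Q) :
    W.op = (P : ℂ) • Up_e a + (Q : ℂ) • Up_e b - ((P + Q - 1 : ℝ) : ℂ) • 1 := by
  refine ContinuousLinearMap.ext fun f => lp.ext (funext fun x => ?_)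
  have h := hW ℂ (fun s => (f : G → ℂ) (x * s))
  have h1 : (W.op f : G → ℂ) x = ∑ s ∈ W.S, W.μ s • (f : G → ℂ) (x * s) := by
    rw [W.op_apply]
    exact Finset.sum_congr rfl fun s _ => by rw [Complex.real_smul]
  rw [h1, h]
  have h2 : (((P : ℂ) • Up_e a + (Q : ℂ) • Up_e b - ((P + Q - 1 : ℝ) : ℂ) •
      (1 : L2 G →L[ℂ] L2 G)) f : L2 G) =
      (P : ℂ) • Up_e a f + (Q : ℂ) • Up_e b f - ((P + Q - 1 : ℝ) : ℂ) • f := rfl
  rw [h2, lp.coeFn_sub, Pi.sub_apply, lp.coeFn_add, Pi.add_apply, lp.coeFn_smul, lp.coeFn_smul,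
    lp.coeFn_smul, Pi.smul_apply, Pi.smul_apply, Pi.smul_apply, Up_e_coe, Up_e_coe]
  simp only [Complex.real_smul, smul_eq_mul, mul_one]
  push_cast
  ring

omit [Group G] in
theorem Up_spec_nonneg {T : L2 G →L[ℂ] L2 G} (hs : ∀ f f', inner ℂ (T f) f' = inner ℂ f (T f'))
    (hp : ∀ f, 0 ≤ (inner ℂ (T f) f).re) {y : ℝ} (hy : (y : ℂ) ∈ spectrum ℂ T) : 0 ≤ y := by
  have h1 : T.IsPositive := by
    rw [ContinuousLinearMap.isPositive_def]
    exact ⟨fun f f' => hs f f', fun f => hp f⟩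
  have h2 : 0 ≤ T := (ContinuousLinearMap.nonneg_iff_isPositive T).2 h1
  have h3 : y ∈ spectrum ℝ T := by
    rw [← spectrum.algebraMap_mem_iff ℂ]
    exact hy
  exact spectrum_nonneg_of_nonneg h2 h3

theorem TwoW.upper {W : Walk G} {P Q : ℝ} (hW : TwoW W a b P Q) (hP : 0 < P) (hQ : 0 < Q) {y : ℝ}
    (hy : y ∈ W.spec) : y ≤ P + Q ∧ 0 ≤ (y - P) * (y - Q) := by
  have hy' : ((1 - y : ℝ) : ℂ) ∈ spectrum ℂ W.op := hy
  have hop := hW.Up_op
  have haa := Up_e_mul a
  have hbb := Up_e_mul b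
  constructor
  · -- `P + Q - X = P eA + Q eB`
    have h1 : ((P + Q - y : ℝ) : ℂ) ∈ spectrum ℂ
        (Polynomial.aeval W.op (Polynomial.X + Polynomial.C ((P + Q - 1 : ℝ) : ℂ))) := by
      apply spectrum.subset_polynomial_aeval
      refine ⟨((1 - y : ℝ) : ℂ), hy', ?_⟩
      simp only [Polynomial.eval_add, Polynomial.eval_X, Polynomial.eval_C]
      push_cast
      ring
    have h2 : Polynomial.aeval W.op (Polynomial.X + Polynomial.C ((P + Q - 1 : ℝ) : ℂ)) =
        (P : ℂ) • Up_e a + (Q : ℂ) • Up_e b := by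
      rw [map_add, Polynomial.aeval_X, Polynomial.aeval_C, hop, Algebra.algebraMap_eq_smul_one]
      abel
    rw [h2] at h1
    have h3 := Up_spec_nonneg (fun f f' => ?_) (fun f => ?_) h1
    · linarith
    · show inner ℂ ((P : ℂ) • Up_e a f + (Q : ℂ) • Up_e b f) f' =
        inner ℂ f ((P : ℂ) • Up_e a f' + (Q : ℂ) • Up_e b f')
      rw [inner_add_left, inner_add_right, inner_smul_left, inner_smul_left, inner_smul_right,
        inner_smul_right, Up_e_inner, Up_e_inner, Complex.conj_ofReal, Complex.conj_ofReal]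
    · show 0 ≤ (inner ℂ ((P : ℂ) • Up_e a f + (Q : ℂ) • Up_e b f) f).re
      rw [inner_add_left, inner_smul_left, inner_smul_left, Up_e_norm, Up_e_norm,
        Complex.conj_ofReal, Complex.conj_ofReal]
      have e : (P : ℂ) * (‖Up_e a f‖ : ℂ) ^ 2 + (Q : ℂ) * (‖Up_e b f‖ : ℂ) ^ 2 =
          ((P * ‖Up_e a f‖ ^ 2 + Q * ‖Up_e b f‖ ^ 2 : ℝ) : ℂ) := by
        push_cast
        ring
      rw [e, Complex.ofReal_re]
      positivity
  · have h1 : (((y - P) * (y - Q) : ℝ) : ℂ) ∈ spectrum ℂ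
        (Polynomial.aeval W.op ((Polynomial.C ((1 - P : ℝ) : ℂ) - Polynomial.X) *
          (Polynomial.C ((1 - Q : ℝ) : ℂ) - Polynomial.X))) := by
      apply spectrum.subset_polynomial_aeval
      refine ⟨((1 - y : ℝ) : ℂ), hy', ?_⟩
      simp only [Polynomial.eval_mul, Polynomial.eval_sub, Polynomial.eval_X, Polynomial.eval_C]
      push_cast
      ring
    have h2 : Polynomial.aeval W.op ((Polynomial.C ((1 - P : ℝ) : ℂ) - Polynomial.X) *
          (Polynomial.C ((1 - Q : ℝ) : ℂ) - Polynomial.X)) =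
        ((P * Q : ℝ) : ℂ) • ((1 - Up_e a - Up_e b) * (1 - Up_e a - Up_e b)) := by
      rw [map_mul, map_sub, map_sub, Polynomial.aeval_X, Polynomial.aeval_C, Polynomial.aeval_C,
        hop, Algebra.algebraMap_eq_smul_one, Algebra.algebraMap_eq_smul_one]
      generalize Up_e a = u at haa ⊢
      generalize Up_e b = v at hbb ⊢
      have e1 : ((1 - P : ℝ) : ℂ) • (1 : L2 G →L[ℂ] L2 G) -
          ((P : ℂ) • u + (Q : ℂ) • v - ((P + Q - 1 : ℝ) : ℂ) • 1) =
          (Q : ℂ) • 1 - ((P : ℂ) • u + (Q : ℂ) • v) := by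
        push_cast
        module
      have e2 : ((1 - Q : ℝ) : ℂ) • (1 : L2 G →L[ℂ] L2 G) -
          ((P : ℂ) • u + (Q : ℂ) • v - ((P + Q - 1 : ℝ) : ℂ) • 1) =
          (P : ℂ) • 1 - ((P : ℂ) • u + (Q : ℂ) • v) := by
        push_cast
        module
      rw [e1, e2]
      simp only [mul_sub, sub_mul, mul_add, add_mul, smul_mul_assoc, mul_smul_comm, one_mul,
        mul_one, haa, hbb]
      push_cast
      module
    rw [h2] at h1
    refine Up_spec_nonneg (fun f f' => ?_) (fun f => ?_) h1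
    · have hK : ∀ f f' : L2 G, inner ℂ ((1 - Up_e a - Up_e b) f) f' =
          inner ℂ f ((1 - Up_e a - Up_e b) f') := by
        intro f f'
        show inner ℂ (f - Up_e a f - Up_e b f) f' = inner ℂ f (f' - Up_e a f' - Up_e b f')
        rw [inner_sub_left, inner_sub_left, inner_sub_right, inner_sub_right, Up_e_inner,
          Up_e_inner]
      show inner ℂ (((P * Q : ℝ) : ℂ) • ((1 - Up_e a - Up_e b) ((1 - Up_e a - Up_e b) f))) f' =
        inner ℂ f (((P * Q : ℝ) : ℂ) • ((1 - Up_e a - Up_e b) ((1 - Up_e a - Up_e b) f')))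
      rw [inner_smul_left, inner_smul_right, hK, hK, Complex.conj_ofReal]
    · have hK : ∀ f f' : L2 G, inner ℂ ((1 - Up_e a - Up_e b) f) f' =
          inner ℂ f ((1 - Up_e a - Up_e b) f') := by
        intro f f'
        show inner ℂ (f - Up_e a f - Up_e b f) f' = inner ℂ f (f' - Up_e a f' - Up_e b f')
        rw [inner_sub_left, inner_sub_left, inner_sub_right, inner_sub_right, Up_e_inner,
          Up_e_inner]
      show 0 ≤ (inner ℂ (((P * Q : ℝ) : ℂ) • ((1 - Up_e a - Up_e b) ((1 - Up_e a - Up_e b) f))) f).re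
      rw [inner_smul_left, hK, Complex.conj_ofReal, inner_self_eq_norm_sq_to_K]
      have e : ((P * Q : ℝ) : ℂ) * ((‖(1 - Up_e a - Up_e b) f‖ : ℝ) : ℂ) ^ 2 =
          ((P * Q * ‖(1 - Up_e a - Up_e b) f‖ ^ 2 : ℝ) : ℂ) := by
        push_cast
        ring
      refine le_of_le_of_eq ?_ (congrArg Complex.re e).symm
      rw [Complex.ofReal_re]
      positivity

end Pool.SpecDense
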