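import Pool.Agent.Lib.MP_863a8d_al.SP.Defs

/-!
# Random walks on a group generated by two finite subgroups
-/

set_option autoImplicit false

namespace Pool.SpecDense

variable {A B G : Type} [Group A] [Fintype A] [Group B] [Fintype B] [Group G]
  {a : A →* G} {b : B →* G}

namespace Wk

open Classical in
/-- the generating set -/
noncomputable def SS (a : A →* G) (b : B →* G) : Finset G :=
  (Finset.univ.erase (1 : A)).image a ∪ (Finset.univ.erase (1 : B)).image b

open Classical in
lemma mem_SS (ha : Function.Injective a) (hb : Function.Injective b) (g : G) :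
    g ∈ SS a b ↔ g ∈ (Set.range a ∪ Set.range b) \ {1} := by
  unfold SS
  rw [Finset.mem_union, Finset.mem_image, Finset.mem_image]
  constructor
  · rintro (⟨x, hx, rfl⟩ | ⟨x, hx, rfl⟩)
    · refine ⟨Or.inl ⟨x, rfl⟩, fun h => ?_⟩
      exact Finset.ne_of_mem_erase hx ((injective_iff_map_eq_one a).1 ha x h)
    · refine ⟨Or.inr ⟨x, rfl⟩, fun h => ?_⟩
      exact Finset.ne_of_mem_erase hx ((injective_iff_map_eq_one b).1 hb x h)
  · rintro ⟨⟨x, rfl⟩ | ⟨x, rfl⟩, h⟩
    · exact Or.inl ⟨x, Finset.mem_erase.2 ⟨fun h' => h (by rw [h', map_one]; rfl),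
        Finset.mem_univ x⟩, rfl⟩
    · exact Or.inr ⟨x, Finset.mem_erase.2 ⟨fun h' => h (by rw [h', map_one]; rfl),
        Finset.mem_univ x⟩, rfl⟩

open Classical in
lemma sum_SS (ha : Function.Injective a) (hb : Function.Injective b)
    (hab : ∀ (x : A) (z : B), a x = b z → x = 1) {V : Type} [AddCommGroup V] (F : G → V) :
    ∑ s ∈ SS a b, F s = (∑ x ∈ Finset.univ.erase (1 : A), F (a x)) +
      ∑ z ∈ Finset.univ.erase (1 : B), F (b z) := by
  unfold SS
  rw [Finset.sum_union, Finset.sum_image (fun x _ y _ h => ha h),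
    Finset.sum_image (fun x _ y _ h => hb h)]
  rw [Finset.disjoint_left]
  intro g h1 h2
  rw [Finset.mem_image] at h1 h2
  obtain ⟨x, hx, rfl⟩ := h1
  obtain ⟨z, hz, hzx⟩ := h2
  exact Finset.ne_of_mem_erase hx (hab x z hzx.symm)

end Wk

open Wk

theorem exists_walk (ha : Function.Injective a) (hb : Function.Injective b)
    (hab : ∀ (x : A) (z : B), a x = b z → x = 1)
    (hgen : Subgroup.closure (Set.range a ∪ Set.range b) = ⊤) {α β : ℝ} (hα : 0 < α) (hβ : 0 < β)
    (hsum : ((Fintype.card A : ℝ) - 1) * α + ((Fintype.card B : ℝ) - 1) * β = 1) :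
    ∃ W : Walk G, (W.S : Set G) = (Set.range a ∪ Set.range b) \ {1} ∧
      (∀ x : A, x ≠ 1 → W.μ (a x) = α) ∧ (∀ z : B, z ≠ 1 → W.μ (b z) = β) := by
  classical
  let μ : G → ℝ := fun g => if g ∈ Set.range a then α else β
  have hS : (SS a b : Set G) = (Set.range a ∪ Set.range b) \ {1} :=
    Set.ext fun g => (Finset.mem_coe.trans (mem_SS ha hb g))
  have hμa : ∀ x : A, μ (a x) = α := fun x => if_pos ⟨x, rfl⟩
  have hμb : ∀ z : B, z ≠ 1 → μ (b z) = β := by
    intro z hz
    refine if_neg ?_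
    rintro ⟨x, hx⟩
    have h1 : x = 1 := hab x z hx
    rw [h1, map_one] at hx
    exact hz ((injective_iff_map_eq_one b).1 hb z hx.symm)
  have hinv : ∀ g ∈ SS a b, g⁻¹ ∈ SS a b ∧ μ g⁻¹ = μ g := by
    intro g hg
    have h1 := (mem_SS ha hb g).1 hg
    have hrange : g⁻¹ ∈ Set.range a ↔ g ∈ Set.range a := by
      constructor
      · rintro ⟨x, hx⟩
        exact ⟨x⁻¹, by rw [map_inv, hx, inv_inv]⟩
      · rintro ⟨x, hx⟩
        exact ⟨x⁻¹, by rw [map_inv, hx]⟩
    refine ⟨(mem_SS ha hb _).2 ⟨?_, fun h => h1.2 ?_⟩, ?_⟩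
    · rcases h1.1 with ⟨x, hx⟩ | ⟨x, hx⟩
      · exact Or.inl ⟨x⁻¹, by rw [map_inv, hx]⟩
      · exact Or.inr ⟨x⁻¹, by rw [map_inv, hx]⟩
    · have h2 : g⁻¹ = 1 := h
      exact inv_eq_one.1 h2
    · show (if g⁻¹ ∈ Set.range a then α else β) = if g ∈ Set.range a then α else β
      simp only [hrange]
  refine ⟨{ S := SS a b
            μ := μ
            pos := fun s _ => ?_
            sum := ?_
            inv_mem := fun s hs => (hinv s hs).1
            μ_inv := fun s hs => (hinv s hs).2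
            gen := ?_ }, hS, fun x _ => hμa x, hμb⟩
  · show 0 < if s ∈ Set.range a then α else β
    split_ifs
    · exact hα
    · exact hβ
  · rw [sum_SS ha hb hab]
    simp_rw [hμa]
    have h1 : ∑ z ∈ Finset.univ.erase (1 : B), μ (b z) = ∑ z ∈ Finset.univ.erase (1 : B), β :=
      Finset.sum_congr rfl fun z hz => hμb z (Finset.ne_of_mem_erase hz)
    rw [h1, Finset.sum_const, Finset.sum_const, Finset.card_erase_of_mem (Finset.mem_univ _),
      Finset.card_erase_of_mem (Finset.mem_univ _), Finset.card_univ, Finset.card_univ,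
      nsmul_eq_mul, nsmul_eq_mul, Nat.cast_sub Fintype.card_pos, Nat.cast_sub Fintype.card_pos,
      Nat.cast_one]
    exact hsum
  · rw [eq_top_iff, ← hgen, Subgroup.closure_le]
    intro g hg
    by_cases h1 : g = 1
    · rw [h1]
      exact Subgroup.one_mem _
    · refine Subgroup.subset_closure ?_
      rw [hS]
      exact ⟨hg, h1⟩

theorem twoW_of (W : Walk G) (ha : Function.Injective a) (hb : Function.Injective b)
    (hab : ∀ (x : A) (z : B), a x = b z → x = 1) {α β : ℝ}
    (hS : (W.S : Set G) = (Set.range a ∪ Set.range b) \ {1})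
    (h1 : ∀ x : A, x ≠ 1 → W.μ (a x) = α) (h2 : ∀ z : B, z ≠ 1 → W.μ (b z) = β) :
    TwoW W a b ((Fintype.card A : ℝ) * α) ((Fintype.card B : ℝ) * β) := by
  classical
  have hSS : W.S = SS a b := by
    ext g
    rw [mem_SS ha hb g, ← hS, Finset.mem_coe]
  have hmain : ∀ (V : Type) [AddCommGroup V] [Module ℝ V] (F : G → V), ∑ s ∈ W.S, W.μ s • F s =
      α • ∑ x : A, F (a x) + β • ∑ z : B, F (b z) - (α + β) • F 1 := by
    intro V _ _ F
    rw [hSS, sum_SS ha hb hab (fun s => W.μ s • F s)]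
    have e1 : ∑ x ∈ Finset.univ.erase (1 : A), W.μ (a x) • F (a x) =
        α • ∑ x : A, F (a x) - α • F 1 := by
      rw [← Finset.add_sum_erase Finset.univ (fun x => F (a x)) (Finset.mem_univ 1), map_one,
        smul_add, add_sub_cancel_left, Finset.smul_sum]
      exact Finset.sum_congr rfl fun x hx => by rw [h1 x (Finset.ne_of_mem_erase hx)]
    have e2 : ∑ z ∈ Finset.univ.erase (1 : B), W.μ (b z) • F (b z) =
        β • ∑ z : B, F (b z) - β • F 1 := by
      rw [← Finset.add_sum_erase Finset.univ (fun z => F (b z)) (Finset.mem_univ 1), map_one,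
        smul_add, add_sub_cancel_left, Finset.smul_sum]
      exact Finset.sum_congr rfl fun z hz => by rw [h2 z (Finset.ne_of_mem_erase hz)]
    rw [e1, e2, add_smul]
    abel
  have hA : (Fintype.card A : ℝ) ≠ 0 := by exact_mod_cast Fintype.card_ne_zero
  have hB : (Fintype.card B : ℝ) ≠ 0 := by exact_mod_cast Fintype.card_ne_zero
  have hsum : (1 : ℝ) = Fintype.card A * α + Fintype.card B * β - (α + β) := by
    have h3 := hmain ℝ (fun _ => 1)
    simp only [smul_eq_mul, mul_one] at h3
    rw [W.sum, Finset.sum_const, Finset.sum_const, Finset.card_univ, Finset.card_univ,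
      nsmul_eq_mul, nsmul_eq_mul] at h3
    linarith
  intro V _ _ F
  rw [hmain V F, mul_div_cancel_left₀ _ hA, mul_div_cancel_left₀ _ hB]
  congr 2
  linarith

end Pool.SpecDense
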