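import Pool.Agent.Lib.MP_863a8d_al.SP.Emb
import Pool.Agent.Lib.MP_863a8d_al.SP.Wk
import Pool.Agent.Lib.MP_863a8d_al.SP.EigS
import Pool.Agent.Lib.MP_863a8d_al.SP.Up
import Pool.Agent.Lib.MP_863a8d_al.SP.Iter
import Pool.Agent.Lib.MP_863a8d_al.SP.FolPD
import Pool.Agent.Lib.MP_863a8d_al.SP.Gen
import Pool.Agent.Lib.MP_863a8d_al.SP.LamD
import Pool.Agent.Lib.MP_863a8d_al.SP.Clos

/-!
# The spectrum of spinal groups
-/

set_option autoImplicit false

namespace Pool.SpecDense.Spinal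

variable {B : Type} [Group B] [Fintype B]

/-- spinal groups are amenable -/
theorem folner (D : Spinal B) : Folner D.Gp :=
  folner_of_good (hyp_of_avg D.gen fun k => by
    obtain ⟨φ, h1, -, -, h2, h3⟩ := iter k D
    exact ⟨φ, h1, h2, h3⟩)

theorem spec_eq (D : Spinal B) {W : Walk D.Gp} {P Q : ℝ} (hW : TwoW W D.a D.b P Q) (hP : 0 < P)
    (hQ : 0 < Q) : W.spec = Set.Icc 0 (min P Q) ∪ Set.Icc (max P Q) (P + Q) := by
  apply Set.Subset.antisymm
  · intro y hy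
    obtain ⟨h1, h2⟩ := hW.upper hP hQ hy
    have h3 := (W.spec_mem hy).1
    rcases le_or_gt y (min P Q) with h | h
    · exact Or.inl ⟨h3, h⟩
    · right
      refine ⟨?_, h1⟩
      by_contra hc
      push Not at hc
      rcases le_total P Q with hPQ | hPQ
      · rw [min_eq_left hPQ] at h
        rw [max_eq_right hPQ] at hc
        nlinarith
      · rw [min_eq_right hPQ] at h
        rw [max_eq_left hPQ] at hc
        nlinarith
  · refine clos W.isClosed_spec hP hQ (fun l => 0 < l ∧ l < 1 ∧ Lam D.a D.b l) ?_ ?_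
    · intro l h0 h1 ε hε
      obtain ⟨l', h2, h3, h4, h5⟩ := D.lam_dense h0 h1 hε
      exact ⟨l', ⟨h2, h3, h4⟩, h5⟩
    · intro l η hl hη
      exact hW.mem_spec D.folner (hl.2.2.eig hl.1 hl.2.1 hQ hη)

theorem main (D : Spinal B) (hker : ∀ z : B, (∀ n, D.ω n z = 1) → z = 1) {α β : ℝ} (hα : 0 < α)
    (hβ : 0 < β)
    (hsum : ((Fintype.card (D.A 0) : ℝ) - 1) * α + ((Fintype.card B : ℝ) - 1) * β = 1) :
    ∃ W : Walk D.Gp, (W.S : Set D.Gp) = (Set.range D.a ∪ Set.range D.b) \ {1} ∧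
      (∀ x : D.A 0, x ≠ 1 → W.μ (D.a x) = α) ∧ (∀ z : B, z ≠ 1 → W.μ (D.b z) = β) ∧
      ∀ c : ℂ, c ∈ W.Sp ↔ ∃ y : ℝ, c = ((1 - y : ℝ) : ℂ) ∧
        ((0 ≤ y ∧ y ≤ Fintype.card (D.A 0) * α ∧ y ≤ Fintype.card B * β) ∨
          (Fintype.card (D.A 0) * α ≤ y ∧ Fintype.card B * β ≤ y ∧
            y ≤ Fintype.card (D.A 0) * α + Fintype.card B * β)) := by
  have ha := D.a_injective
  have hb := D.b_injective hker
  have hab : ∀ (x : D.A 0) (z : B), D.a x = D.b z → x = 1 := fun x z h => D.a_eq_b h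
  obtain ⟨W, hS, h1, h2⟩ := exists_walk ha hb hab D.gen hα hβ hsum
  refine ⟨W, hS, h1, h2, ?_⟩
  have hW := twoW_of W ha hb hab hS h1 h2
  have hA : (0 : ℝ) < Fintype.card (D.A 0) := by exact_mod_cast Fintype.card_pos
  have hB : (0 : ℝ) < Fintype.card B := by exact_mod_cast Fintype.card_pos
  have hspec := D.spec_eq hW (mul_pos hA hα) (mul_pos hB hβ)
  intro c
  constructor
  · intro hc
    rw [W.mem_Sp_iff] at hc
    have hre : c = ((c.re : ℝ) : ℂ) := W.op_selfAdjoint.mem_spectrum_eq_re hc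
    have hy : (1 - c.re) ∈ W.spec := by
      rw [W.mem_spec_iff, sub_sub_cancel, W.mem_Sp_iff, ← hre]
      exact hc
    refine ⟨1 - c.re, by rw [sub_sub_cancel]; exact hre, ?_⟩
    rw [hspec] at hy
    rcases hy with hy | hy
    · exact Or.inl ⟨hy.1, hy.2.trans (min_le_left _ _), hy.2.trans (min_le_right _ _)⟩
    · exact Or.inr ⟨(le_max_left _ _).trans hy.1, (le_max_right _ _).trans hy.1, hy.2⟩
  · rintro ⟨y, rfl, hy⟩
    rw [← W.mem_spec_iff, hspec]
    rcases hy with ⟨h3, h4, h5⟩ | ⟨h3, h4, h5⟩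
    · exact Or.inl ⟨h3, le_min h4 h5⟩
    · exact Or.inr ⟨max_le h3 h4, h5⟩

end Pool.SpecDense.Spinal
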