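import Pool.Agent.Lib.MP_863a8d_al.SP.Defs

/-!
# Averages of positive definite functions on finite groups

`pd_sub_avg`: the kernel of `φ - avg φ` is positive. `avg_nonneg_of_pd`: the average is nonnegative.
`avg_mul_le`: `(φ - avg φ) * (ψ - avg ψ)` is positive definite, so its average is nonnegative.
`avg_comp_surj`: averages along surjective homomorphisms.
-/

set_option autoImplicit false

namespace Pool.SpecDense

variable {B : Type} [Group B] [Fintype B]

namespace Schur

lemma card_ne : (Fintype.card B : ℝ) ≠ 0 := by exact_mod_cast Fintype.card_ne_zero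

lemma sum_left (φ : B → ℝ) (x : B) : ∑ y, φ (x⁻¹ * y) = (Fintype.card B : ℝ) * avg φ := by
  unfold avg
  rw [Fintype.sum_equiv (Equiv.mulLeft x⁻¹) (fun y => φ (x⁻¹ * y)) φ (fun y => rfl),
    mul_div_cancel₀ _ card_ne]

lemma sum_right (φ : B → ℝ) (y : B) : ∑ x, φ (x⁻¹ * y) = (Fintype.card B : ℝ) * avg φ := by
  unfold avg
  rw [Fintype.sum_equiv ((Equiv.inv B).trans (Equiv.mulRight y)) (fun x => φ (x⁻¹ * y)) φ
    (fun x => rfl), mul_div_cancel₀ _ card_ne]

end Schur

open Schur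

theorem avg_nonneg_of_pd {φ : B → ℝ} (hφ : PD φ) : 0 ≤ avg φ := by
  have h := hφ.2 Finset.univ (fun _ => 1)
  simp only [one_mul] at h
  simp_rw [sum_left] at h
  rw [Finset.sum_const, Finset.card_univ, nsmul_eq_mul, ← mul_assoc] at h
  have hc : (0 : ℝ) < (Fintype.card B : ℝ) := by exact_mod_cast Fintype.card_pos
  exact nonneg_of_mul_nonneg_right h (mul_pos hc hc)

theorem pd_sub_avg {φ : B → ℝ} (hφ : PD φ) : PD (fun x => φ x - avg φ) := by
  classical
  refine ⟨fun x y => ?_, fun F c => ?_⟩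
  · show φ (x⁻¹ * y) - avg φ = φ (y⁻¹ * x) - avg φ
    rw [show φ (x⁻¹ * y) = φ (y⁻¹ * x) from hφ.1 x y]
  · -- extend by zero
    set c' : B → ℝ := fun x => if x ∈ F then c x else 0 with hc'
    have hm : (Fintype.card B : ℝ) ≠ 0 := card_ne
    have hext : ∀ k : B → B → ℝ, ∑ x ∈ F, ∑ y ∈ F, c x * c y * k x y =
        ∑ x, ∑ y, c' x * c' y * k x y := by
      intro k
      have h1 : ∀ x, ∑ y, c' x * c' y * k x y = if x ∈ F then ∑ y ∈ F, c x * c y * k x y else 0 := by
        intro x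
        by_cases hx : x ∈ F
        · rw [if_pos hx, ← Finset.sum_subset (Finset.subset_univ F)
            (fun y _ hy => by rw [hc']; simp only [if_neg hy, mul_zero, zero_mul])]
          refine Finset.sum_congr rfl fun y hy => ?_
          rw [hc']
          simp only [if_pos hx, if_pos hy]
        · rw [if_neg hx]
          refine Finset.sum_eq_zero fun y _ => ?_
          rw [hc']
          simp only [if_neg hx, zero_mul]
      simp_rw [h1]
      rw [← Finset.sum_filter, Finset.filter_mem_eq_inter, Finset.univ_inter]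
    show 0 ≤ ∑ x ∈ F, ∑ y ∈ F, c x * c y * (φ (x⁻¹ * y) - avg φ)
    rw [hext (fun x y => φ (x⁻¹ * y) - avg φ)]
    set s : ℝ := ∑ x, c' x with hs
    set m : ℝ := (Fintype.card B : ℝ) with hmdef
    have h2 := hφ.2 Finset.univ (fun x => c' x - s / m)
    refine h2.trans (le_of_eq ?_)
    have e1 : ∀ x y : B, (c' x - s / m) * (c' y - s / m) * φ (x⁻¹ * y) =
        c' x * c' y * φ (x⁻¹ * y) - s / m * (c' x * φ (x⁻¹ * y)) -
          s / m * (c' y * φ (x⁻¹ * y)) + (s / m) ^ 2 * φ (x⁻¹ * y) := fun x y => by ring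
    have e2 : ∀ x y : B, c' x * c' y * (φ (x⁻¹ * y) - avg φ) =
        c' x * c' y * φ (x⁻¹ * y) - avg φ * (c' x * c' y) := fun x y => by ring
    simp_rw [e1, e2, Finset.sum_add_distrib, Finset.sum_sub_distrib, ← Finset.mul_sum]
    have f1 : ∑ x, c' x * ∑ y, φ (x⁻¹ * y) = s * (m * avg φ) := by
      simp_rw [sum_left, ← Finset.sum_mul]
      rfl
    have f2 : ∑ x, ∑ y, c' y * φ (x⁻¹ * y) = s * (m * avg φ) := by
      rw [Finset.sum_comm]
      simp_rw [← Finset.mul_sum, sum_right, ← Finset.sum_mul]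
      rfl
    have f3 : ∑ x : B, ∑ y : B, φ (x⁻¹ * y) = m * (m * avg φ) := by
      simp_rw [sum_left]
      rw [Finset.sum_const, Finset.card_univ, nsmul_eq_mul]
    have f4 : ∑ x, c' x * ∑ y, c' y = s * s := by
      rw [← Finset.sum_mul]
    rw [f1, f2, f3, f4]
    field_simp
    ring

theorem avg_mul_le {φ ψ : B → ℝ} (hφ : PD φ) (hψ : PD ψ) :
    avg φ * avg ψ ≤ avg (fun z => φ z * ψ z) := by
  have h1 : PD (fun x => (φ x - avg φ) * (ψ x - avg ψ)) :=
    PSDk.mul (pd_sub_avg hφ) (pd_sub_avg hψ)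
  have h2 := avg_nonneg_of_pd h1
  have h3 : avg (fun x => (φ x - avg φ) * (ψ x - avg ψ)) =
      avg (fun z => φ z * ψ z) - avg φ * avg ψ := by
    have hm : (Fintype.card B : ℝ) ≠ 0 := card_ne
    have e1 : ∀ x, (φ x - avg φ) * (ψ x - avg ψ) =
        φ x * ψ x - avg ψ * φ x - avg φ * ψ x + avg φ * avg ψ := fun x => by ring
    have e2 : ∀ f : B → ℝ, ∑ x, f x = (Fintype.card B : ℝ) * avg f := by
      intro f
      unfold avg
      rw [mul_div_cancel₀ _ hm]
    simp_rw [e1]
    conv_lhs => unfold avg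
    rw [Finset.sum_add_distrib, Finset.sum_sub_distrib, Finset.sum_sub_distrib, ← Finset.mul_sum,
      ← Finset.mul_sum, Finset.sum_const, Finset.card_univ, nsmul_eq_mul, e2 φ, e2 ψ,
      e2 (fun x => φ x * ψ x)]
    field_simp
    ring
  linarith

theorem avg_comp_surj {A' : Type} [Group A'] [Fintype A'] {ω : B →* A'}
    (hω : Function.Surjective ω) (k : A' → ℝ) : avg (fun z : B => k (ω z)) = avg k := by
  have hm : (Fintype.card B : ℝ) ≠ 0 := card_ne
  have hm' : (Fintype.card A' : ℝ) ≠ 0 := card_ne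
  have h1 : ∀ x : A', ∑ z : B, k (x * ω z) = ∑ z : B, k (ω z) := by
    intro x
    obtain ⟨z₀, rfl⟩ := hω x
    simp_rw [← map_mul]
    exact Fintype.sum_equiv (Equiv.mulLeft z₀) (fun z => k (ω (z₀ * z))) (fun z => k (ω z))
      (fun z => rfl)
  have h2 : ∀ z : B, ∑ x : A', k (x * ω z) = ∑ x : A', k x := fun z =>
    Fintype.sum_equiv (Equiv.mulRight (ω z)) (fun x => k (x * ω z)) k (fun x => rfl)
  have h3 : ∑ x : A', ∑ z : B, k (x * ω z) = ∑ z : B, ∑ x : A', k (x * ω z) := Finset.sum_comm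
  simp_rw [h1, h2] at h3
  rw [Finset.sum_const, Finset.sum_const, Finset.card_univ, Finset.card_univ, nsmul_eq_mul,
    nsmul_eq_mul] at h3
  unfold avg
  rw [div_eq_div_iff hm hm']
  linarith

end Pool.SpecDense
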