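import Pool.Agent.Lib.MP_863a8d_al.SP.Defs

/-!
# The self similar structure of a spinal group

`Spinal.cons x u` (file `Defs`) is the sequence with first letter `x` and tail `u`. For every `g : D.Gp`
there are `p : D.A 0` and `s : D.A 0 → D.shift.Gp` with
`∀ x u, g (cons x u) = cons (p * x) (s x u)`; they are unique.
-/

set_option autoImplicit false

namespace Pool.SpecDense.Spinal

variable {B : Type} [Group B] (D : Spinal B)

namespace Sec

lemma cons_zero (x : D.A 0) (u : D.shift.Pt) : D.cons x u 0 = x := rfl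

lemma cons_succ (x : D.A 0) (u : D.shift.Pt) (n : ℕ) : D.cons x u (n + 1) = u n := rfl

lemma cons_inj {x x' : D.A 0} {u u' : D.shift.Pt} (h : D.cons x u = D.cons x' u') :
    x = x' ∧ u = u' :=
  ⟨congrFun h 0, funext fun n => congrFun h (n + 1)⟩

lemma cons_eta (v : D.Pt) : D.cons (v 0) (fun n => v (n + 1)) = v := by
  funext n
  cases n with
  | zero => rfl
  | succ n => rfl

lemma rot_cons (y x : D.A 0) (u : D.shift.Pt) : D.rot y (D.cons x u) = D.cons (y * x) u := by
  funext n
  cases n with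
  | zero => rfl
  | succ n => rfl

lemma not_At_zero {x : D.A 0} (hx : x ≠ D.g 0) (u : D.shift.Pt) : ¬ D.At (D.cons x u) 0 :=
  fun h => hx h.2

lemma not_At_succ {x : D.A 0} (hx : x ≠ 1) (u : D.shift.Pt) (k : ℕ) :
    ¬ D.At (D.cons x u) (k + 1) := fun h => hx (h.1 0 (Nat.succ_pos k))

lemma At_one_succ (u : D.shift.Pt) (k : ℕ) : D.At (D.cons 1 u) (k + 1) ↔ D.shift.At u k := by
  constructor
  · intro h
    exact ⟨fun i hi => h.1 (i + 1) (Nat.succ_lt_succ hi), h.2⟩
  · intro h
    refine ⟨fun i hi => ?_, h.2⟩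
    cases i with
    | zero => rfl
    | succ i => exact h.1 i (Nat.lt_of_succ_lt_succ hi)

lemma dir_one_cons (z : B) (u : D.shift.Pt) :
    D.dir z (D.cons 1 u) = D.cons 1 (D.shift.dir z u) := by
  funext n
  match n with
  | 0 => rfl
  | 1 =>
      rw [D.dir_neg z (not_At_zero D (D.ne 0).symm u)]
      rfl
  | k + 2 =>
      by_cases h : D.shift.At u k
      · rw [D.dir_pos z ((At_one_succ D u k).2 h)]
        exact (D.shift.dir_pos z h).symm
      · rw [D.dir_neg z (fun h' => h ((At_one_succ D u k).1 h'))]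
        show u (k + 1) = D.shift.dir z u (k + 1)
        rw [D.shift.dir_neg z h]

lemma dir_g_cons (z : B) (u : D.shift.Pt) :
    D.dir z (D.cons (D.g 0) u) = D.cons (D.g 0) (D.shift.rot (D.ω 0 z) u) := by
  have h0 : D.At (D.cons (D.g 0) u) 0 := ⟨fun i hi => absurd hi (Nat.not_lt_zero i), rfl⟩
  funext n
  match n with
  | 0 => rfl
  | 1 =>
      rw [D.dir_pos z h0]
      rfl
  | k + 2 =>
      rw [D.dir_neg z (not_At_succ D (D.ne 0) u k)]
      rfl

lemma dir_ne_cons (z : B) {x : D.A 0} (h1 : x ≠ 1) (h2 : x ≠ D.g 0) (u : D.shift.Pt) :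
    D.dir z (D.cons x u) = D.cons x u := by
  funext n
  match n with
  | 0 => rfl
  | 1 => rw [D.dir_neg z (not_At_zero D h2 u)]
  | k + 2 => rw [D.dir_neg z (not_At_succ D h1 u k)]

/-- `g` acts on the first letter by `p` and has the sections `s x` -/
def Dec (g : Equiv.Perm D.Pt) (p : D.A 0) (s : D.A 0 → D.shift.Gp) : Prop :=
  ∀ (x : D.A 0) (u : D.shift.Pt), g (D.cons x u) = D.cons (p * x) ((s x : Equiv.Perm _) u)

variable {D}

lemma Dec.rot (y : D.A 0) : Dec D (D.rotHom y) y (fun _ => 1) := fun x u => rot_cons D y x u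

open Classical in
/-- the sections of a directed generator -/
noncomputable def sb (D : Spinal B) (z : B) (x : D.A 0) : D.shift.Gp :=
  if x = 1 then D.shift.b z else if x = D.g 0 then D.shift.a (D.ω 0 z) else 1

lemma Dec.dir (z : B) : Dec D (D.dirHom z) 1 (sb D z) := by
  intro x u
  rw [one_mul]
  unfold sb
  by_cases h1 : x = 1
  · rw [if_pos h1]
    subst h1
    exact dir_one_cons D z u
  · rw [if_neg h1]
    by_cases h2 : x = D.g 0
    · rw [if_pos h2]
      subst h2
      exact dir_g_cons D z u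
    · rw [if_neg h2]
      exact dir_ne_cons D z h1 h2 u

lemma Dec.one : Dec D 1 1 (fun _ => 1) := by
  intro x u
  rw [one_mul]
  rfl

lemma Dec.mul {g h : Equiv.Perm D.Pt} {p q : D.A 0} {s t : D.A 0 → D.shift.Gp}
    (hg : Dec D g p s) (hh : Dec D h q t) : Dec D (g * h) (p * q) (fun x => s (q * x) * t x) := by
  intro x u
  rw [Equiv.Perm.mul_apply, hh x u, hg, mul_assoc]
  rfl

lemma Dec.inv {g : Equiv.Perm D.Pt} {p : D.A 0} {s : D.A 0 → D.shift.Gp}
    (hg : Dec D g p s) : Dec D g⁻¹ p⁻¹ (fun x => (s (p⁻¹ * x))⁻¹) := by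
  intro x u
  rw [Equiv.Perm.inv_def, Equiv.symm_apply_eq, hg, mul_inv_cancel_left]
  congr 1
  rw [← Equiv.Perm.mul_apply, ← Subgroup.coe_mul, mul_inv_cancel]
  rfl

lemma Dec.unique {g : Equiv.Perm D.Pt} {p q : D.A 0} {s t : D.A 0 → D.shift.Gp}
    (hs : Dec D g p s) (ht : Dec D g q t) : p = q ∧ s = t := by
  constructor
  · have h := cons_inj D ((hs 1 (fun _ => 1)).symm.trans (ht 1 (fun _ => 1)))
    exact mul_right_cancel h.1
  · funext x
    refine Subtype.ext (Equiv.ext fun u => ?_)
    exact (cons_inj D ((hs x u).symm.trans (ht x u))).2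

lemma exists_dec (g : D.Gp) : ∃ (p : D.A 0) (s : D.A 0 → D.shift.Gp), Dec D g.1 p s := by
  let H : Subgroup (Equiv.Perm D.Pt) :=
    { carrier := {g | ∃ (p : D.A 0) (s : D.A 0 → D.shift.Gp), Dec D g p s}
      one_mem' := ⟨1, _, Dec.one⟩
      mul_mem' := by
        rintro g h ⟨p, s, hg⟩ ⟨q, t, hh⟩
        exact ⟨_, _, hg.mul hh⟩
      inv_mem' := by
        rintro g ⟨p, s, hg⟩
        exact ⟨_, _, hg.inv⟩ }
  have hle : D.G ≤ H := by
    refine sup_le ?_ ?_
    · rintro _ ⟨x, rfl⟩
      exact ⟨_, _, Dec.rot x⟩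
    · rintro _ ⟨z, rfl⟩
      exact ⟨_, _, Dec.dir z⟩
  exact hle g.2

end Sec

open Sec

theorem exists_step (D : Spinal B) :
    Nonempty (Step D.a D.b D.shift.a D.shift.b (D.ω 0) (D.g 0)) := by
  classical
  choose p s hps using fun g : D.Gp => exists_dec g
  have hmul : ∀ g h : D.Gp, p (g * h) = p g * p h ∧
      s (g * h) = fun x => s g (p h * x) * s h x := fun g h =>
    (hps (g * h)).unique ((hps g).mul (hps h))
  have hone : p 1 = 1 := ((hps 1).unique Dec.one).1
  have ha : ∀ x : D.A 0, p (D.a x) = x ∧ s (D.a x) = fun _ => 1 := fun x =>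
    (hps (D.a x)).unique (Dec.rot x)
  have hb : ∀ z : B, p (D.b z) = 1 ∧ s (D.b z) = sb D z := fun z =>
    (hps (D.b z)).unique (Dec.dir z)
  refine ⟨{ p := { toFun := p, map_one' := hone, map_mul' := fun g h => (hmul g h).1 }
            sec := s
            sec_mul := fun g h x => by rw [(hmul g h).2]; rfl
            p_a := fun x => (ha x).1
            p_b := fun z => (hb z).1
            sec_a := fun x y => by rw [(ha x).2]
            sec_b_one := fun z => by rw [(hb z).2]; exact if_pos rfl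
            sec_b_g := fun z => by rw [(hb z).2]; exact (if_neg (D.ne 0)).trans (if_pos rfl)
            sec_b_ne := fun z x h1 h2 => by
              rw [(hb z).2]
              exact (if_neg h1).trans (if_neg h2)
            inj := fun g hg hs => ?_ }⟩
  refine Subtype.ext (Equiv.ext fun v => ?_)
  have h1 := hps g (v 0) (fun n => v (n + 1))
  have h2 : p g = 1 := hg
  rw [cons_eta, h2, one_mul, hs (v 0)] at h1
  exact h1.trans (cons_eta D v)

end Pool.SpecDense.Spinal
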