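import Pool.Agent.Lib.MP_863a8d_al.SP.Defs
import Pool.Agent.Lib.MP_863a8d_al.Op

/-!
# A finitely supported positive definite function is a coefficient of the regular representation

`T = ∑ s ∈ supp φ, (φ s : ℂ) • R s` is a positive operator which commutes with the left translations; the
vector is the value at `δ₁` of its square root.
-/

set_option autoImplicit false

open scoped ENNReal

namespace Pool.SpecDense

variable {G : Type} [Group G]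

lemma memℓp_ltrans (g : G) (f : L2 G) : Memℓp (fun x => (f : G → ℂ) (g⁻¹ * x)) 2 := by
  have h := lp.memℓp f
  rw [memℓp_gen_iff (by norm_num)] at h ⊢
  exact (Equiv.mulLeft g⁻¹).summable_iff.2 h

/-- Left translation on `ℓ²(G)`: `(Lt g f) x = f (g⁻¹ x)`. -/
noncomputable def ltransL (g : G) : L2 G →ₗ[ℂ] L2 G where
  toFun f := ⟨fun x => (f : G → ℂ) (g⁻¹ * x), memℓp_ltrans g f⟩
  map_add' _ _ := rfl
  map_smul' _ _ := rfl

lemma norm_ltransL (g : G) (f : L2 G) : ‖ltransL g f‖ = ‖f‖ := by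
  rw [lp.norm_eq_tsum_rpow (by norm_num), lp.norm_eq_tsum_rpow (by norm_num)]
  congr 1
  exact (Equiv.mulLeft g⁻¹).tsum_eq (fun x => ‖(f : G → ℂ) x‖ ^ (2 : ℝ≥0∞).toReal)

/-- Left translation on `ℓ²(G)`: `(Lt g f) x = f (g⁻¹ x)`. -/
noncomputable def Lt (g : G) : L2 G →L[ℂ] L2 G :=
  (ltransL g).mkContinuous 1 (fun f => by rw [norm_ltransL, one_mul])

lemma Lt_apply (g : G) (f : L2 G) (x : G) : (Lt g f : G → ℂ) x = (f : G → ℂ) (g⁻¹ * x) := rfl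

theorem Sqrt_Lt_one (f : L2 G) : Lt (1 : G) f = f := by
  apply lp.ext
  funext x
  rw [Lt_apply, inv_one, one_mul]

theorem Sqrt_Lt_mul (g h : G) (f : L2 G) : Lt (g * h) f = Lt g (Lt h f) := by
  apply lp.ext
  funext x
  rw [Lt_apply, Lt_apply, Lt_apply, mul_inv_rev, mul_assoc]

theorem Sqrt_inner_Lt (g : G) (f f' : L2 G) : inner ℂ (Lt g f) f' = inner ℂ f (Lt g⁻¹ f') := by
  rw [lp.inner_eq_tsum, lp.inner_eq_tsum]
  have h := (Equiv.mulLeft g⁻¹).tsum_eq (fun x => inner ℂ ((f : G → ℂ) x) ((f' : G → ℂ) (g * x)))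
  simp only [Lt_apply, inv_inv]
  rw [← h]
  refine tsum_congr fun x => ?_
  simp only [Equiv.coe_mulLeft, mul_inv_cancel_left]

/-- the operator of a function with finite support -/
noncomputable def Sqrt_T (S : Finset G) (φ : G → ℝ) : L2 G →L[ℂ] L2 G := ∑ s ∈ S, (φ s : ℂ) • R s

theorem Sqrt_T_eq (S : Finset G) (φ : G → ℝ) (f : L2 G) :
    Sqrt_T S φ f = ∑ s ∈ S, (φ s : ℂ) • R s f := by
  unfold Sqrt_T
  rw [sum_apply]
  rfl

theorem Sqrt_T_apply (S : Finset G) (φ : G → ℝ) (f : L2 G) (x : G) :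
    (Sqrt_T S φ f : G → ℂ) x = ∑ s ∈ S, (φ s : ℂ) * (f : G → ℂ) (x * s) := by
  rw [Sqrt_T_eq, lp.coeFn_sum, Finset.sum_apply]
  rfl

theorem Sqrt_T_Lt (S : Finset G) (φ : G → ℝ) (g : G) (f : L2 G) :
    Sqrt_T S φ (Lt g f) = Lt g (Sqrt_T S φ f) := by
  apply lp.ext
  funext x
  rw [Sqrt_T_apply, Lt_apply, Sqrt_T_apply]
  refine Finset.sum_congr rfl fun s _ => ?_
  rw [Lt_apply, mul_assoc]

open Classical in
theorem Sqrt_T_single (S : Finset G) (φ : G → ℝ) (hS : ∀ s, s ∉ S → φ s = 0) (x y : G) (c : ℂ) :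
    (Sqrt_T S φ (lp.single 2 x c) : G → ℂ) y = (φ (y⁻¹ * x) : ℂ) * c := by
  rw [Sqrt_T_apply]
  have h : ∀ s : G, ((lp.single 2 x c : L2 G) : G → ℂ) (y * s) = if s = y⁻¹ * x then c else 0 := by
    intro s
    rw [lp.single_apply, Pi.single_apply]
    have : (y * s = x) ↔ (s = y⁻¹ * x) := by
      rw [eq_inv_mul_iff_mul_eq]
    simp only [this]
  simp_rw [h, mul_ite, mul_zero]
  rw [Finset.sum_ite_eq']
  by_cases hm : y⁻¹ * x ∈ S
  · rw [if_pos hm]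
  · rw [if_neg hm, hS _ hm]
    simp

theorem Sqrt_T_symm {S : Finset G} {φ : G → ℝ}
    (hφ : ∀ s, φ s⁻¹ = φ s) (hSi : ∀ s ∈ S, s⁻¹ ∈ S) (f f' : L2 G) :
    inner ℂ (Sqrt_T S φ f) f' = inner ℂ f (Sqrt_T S φ f') := by
  rw [Sqrt_T_eq, Sqrt_T_eq, sum_inner, inner_sum]
  refine Finset.sum_nbij' (fun s => s⁻¹) (fun s => s⁻¹) (fun s hs => hSi s hs)
    (fun s hs => hSi s hs) (fun s _ => inv_inv s) (fun s _ => inv_inv s) ?_
  intro s hs
  rw [inner_smul_left, inner_smul_right, Complex.conj_ofReal, inner_R, hφ]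

open Classical in
theorem Sqrt_T_pos_fin {S : Finset G} {φ : G → ℝ} (h : PD φ) (hS : ∀ s, s ∉ S → φ s = 0)
    (F : Finset G) (c : G → ℂ) :
    0 ≤ (inner ℂ (Sqrt_T S φ (∑ x ∈ F, (lp.single 2 x (c x) : L2 G)))
      (∑ x ∈ F, (lp.single 2 x (c x) : L2 G))).re := by
  rw [map_sum, sum_inner, Complex.re_sum]
  have h1 : ∀ x ∈ F, (inner ℂ (Sqrt_T S φ (lp.single 2 x (c x)))
      (∑ y ∈ F, (lp.single 2 y (c y) : L2 G))).re =
      ∑ y ∈ F, ((c x).re * (c y).re * φ (x⁻¹ * y) + (c x).im * (c y).im * φ (x⁻¹ * y)) := by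
    intro x _
    rw [inner_sum, Complex.re_sum]
    refine Finset.sum_congr rfl fun y _ => ?_
    rw [lp.inner_single_right, Sqrt_T_single S φ hS]
    have hs : φ (y⁻¹ * x) = φ (x⁻¹ * y) := (h.1 x y).symm
    rw [hs]
    have e : inner ℂ ((φ (x⁻¹ * y) : ℂ) * c x) (c y) = (φ (x⁻¹ * y) : ℂ) * (starRingEnd ℂ (c x) * c y) := by
      rw [RCLike.inner_apply, map_mul, Complex.conj_ofReal]
      ring
    rw [e, Complex.re_ofReal_mul, Complex.mul_re, Complex.conj_re, Complex.conj_im]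
    ring
  rw [Finset.sum_congr rfl h1]
  simp_rw [Finset.sum_add_distrib]
  exact add_nonneg (h.2 F fun x => (c x).re) (h.2 F fun x => (c x).im)

theorem Sqrt_T_pos {S : Finset G} {φ : G → ℝ} (h : PD φ) (hS : ∀ s, s ∉ S → φ s = 0) (f : L2 G) :
    0 ≤ (inner ℂ (Sqrt_T S φ f) f).re := by
  classical
  have h1 : HasSum (fun x : G => (lp.single 2 x ((f : G → ℂ) x) : L2 G)) f :=
    lp.hasSum_single (by norm_num) f
  have h2 : Filter.Tendsto (fun F : Finset G => (inner ℂ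
      (Sqrt_T S φ (∑ x ∈ F, (lp.single 2 x ((f : G → ℂ) x) : L2 G)))
      (∑ x ∈ F, (lp.single 2 x ((f : G → ℂ) x) : L2 G))).re) Filter.atTop
      (nhds (inner ℂ (Sqrt_T S φ f) f).re) := by
    have h3 : Continuous fun f : L2 G => (inner ℂ (Sqrt_T S φ f) f).re := by fun_prop
    exact (h3.tendsto f).comp h1
  exact ge_of_tendsto' h2 fun F => Sqrt_T_pos_fin h hS F _

theorem Sqrt_abs {H : Type} [NormedAddCommGroup H] [InnerProductSpace ℂ H] [CompleteSpace H]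
    (T : H →L[ℂ] H) (hT : 0 ≤ T) : ∃ Q : H →L[ℂ] H, 0 ≤ Q ∧ Q * Q = T ∧
      ∀ Q' : H →L[ℂ] H, 0 ≤ Q' → Q' * Q' = T → Q' = Q := by
  refine ⟨CFC.sqrt T, CFC.sqrt_nonneg T, CFC.sqrt_mul_sqrt_self T hT, fun Q' h1 h2 => ?_⟩
  exact (CFC.sqrt_unique h2 h1).symm

theorem exists_sqrt {φ : G → ℝ} (h : Good φ) :
    ∃ η : L2 G, ∀ g : G, (inner ℂ (Lt g η) η).re = φ g := by
  classical
  obtain ⟨S, hSdef⟩ : ∃ S : Finset G, ∀ s, s ∈ S ↔ φ s ≠ 0 := ⟨h.fin.toFinset, fun s => by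
    rw [Set.Finite.mem_toFinset]
    rfl⟩
  have hS : ∀ s, s ∉ S → φ s = 0 := by
    intro s hs
    by_contra hc
    exact hs ((hSdef s).2 hc)
  have hφ : ∀ s, φ s⁻¹ = φ s := by
    intro s
    have := h.pd.1 s 1
    simpa using this
  have hSi : ∀ s ∈ S, s⁻¹ ∈ S := by
    intro s hs
    rw [hSdef, hφ]
    exact (hSdef s).1 hs
  obtain ⟨T, hT⟩ : ∃ T : L2 G →L[ℂ] L2 G, T = Sqrt_T S φ := ⟨_, rfl⟩
  have hTs : ∀ f f', inner ℂ (T f) f' = inner ℂ f (T f') := by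
    intro f f'
    rw [hT]
    exact Sqrt_T_symm hφ hSi f f'
  have hTp : 0 ≤ T := by
    rw [ContinuousLinearMap.nonneg_iff_isPositive, ContinuousLinearMap.isPositive_def]
    refine ⟨fun f f' => hTs f f', fun f => ?_⟩
    rw [hT]
    exact Sqrt_T_pos h.pd hS f
  obtain ⟨Q, hQp, hQQ, hQu⟩ := Sqrt_abs T hTp
  have hQpos := (ContinuousLinearMap.nonneg_iff_isPositive Q).1 hQp
  have hQs : ∀ f f', inner ℂ (Q f) f' = inner ℂ f (Q f') := fun f f' => hQpos.isSymmetric f f'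
  have hQL : ∀ (g : G) (f : L2 G), Q (Lt g f) = Lt g (Q f) := by
    intro g f
    have h1 : (Lt g * Q * Lt g⁻¹) * (Lt g * Q * Lt g⁻¹) = T := by
      refine ContinuousLinearMap.ext fun f => ?_
      show Lt g (Q (Lt g⁻¹ (Lt g (Q (Lt g⁻¹ f))))) = T f
      rw [← Sqrt_Lt_mul g⁻¹ g, inv_mul_cancel, Sqrt_Lt_one]
      have h2 : Q (Q (Lt g⁻¹ f)) = T (Lt g⁻¹ f) := by
        rw [← hQQ]
        rfl
      rw [h2, hT, Sqrt_T_Lt, ← Sqrt_Lt_mul, mul_inv_cancel, Sqrt_Lt_one]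
    have h3 : 0 ≤ Lt g * Q * Lt g⁻¹ := by
      rw [ContinuousLinearMap.nonneg_iff_isPositive, ContinuousLinearMap.isPositive_def]
      refine ⟨fun f f' => ?_, fun f => ?_⟩
      · show inner ℂ (Lt g (Q (Lt g⁻¹ f))) f' = inner ℂ f (Lt g (Q (Lt g⁻¹ f')))
        rw [Sqrt_inner_Lt, hQs, Sqrt_inner_Lt, inv_inv]
      · show 0 ≤ (inner ℂ (Lt g (Q (Lt g⁻¹ f))) f).re
        rw [Sqrt_inner_Lt]
        exact hQpos.re_inner_nonneg_left _
    have h4 : Lt g * Q * Lt g⁻¹ = Q := hQu _ h3 h1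
    have h5 : (Lt g * Q * Lt g⁻¹) (Lt g f) = Q (Lt g f) := by rw [h4]
    rw [← h5]
    show Lt g (Q (Lt g⁻¹ (Lt g f))) = Lt g (Q f)
    rw [← Sqrt_Lt_mul g⁻¹ g, inv_mul_cancel, Sqrt_Lt_one]
  refine ⟨Q (lp.single 2 1 1), fun g => ?_⟩
  have h6 : Lt g (lp.single 2 (1 : G) (1 : ℂ) : L2 G) = lp.single 2 g 1 := by
    apply lp.ext
    funext x
    rw [Lt_apply, lp.single_apply, lp.single_apply, Pi.single_apply, Pi.single_apply]
    have : (g⁻¹ * x = 1) ↔ (x = g) := by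
      rw [inv_mul_eq_one]
      exact eq_comm
    simp only [this]
  rw [← hQL, h6, hQs]
  have h7 : Q (Q (lp.single 2 (1 : G) (1 : ℂ) : L2 G)) = T (lp.single 2 1 1) := by
    rw [← hQQ]
    rfl
  rw [h7, lp.inner_single_left, hT, Sqrt_T_single S φ hS, mul_one, mul_one, hφ]
  rw [RCLike.inner_apply]
  simp

end Pool.SpecDense
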